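import Mathlib

/-! Chebyshev approximation of `1 / z` on `[μ, 1]`. -/

namespace Pool.Agent.H564R2.QF

open Polynomial

lemma T_growth (y : ℝ) (hy : 0 ≤ y) (d : ℕ) :
    1 + (d : ℝ) ^ 2 * y ≤ (Chebyshev.T ℝ (d : ℤ)).eval (1 + y) ∧
      (2 * (d : ℝ) + 1) * y ≤ (Chebyshev.T ℝ ((d : ℤ) + 1)).eval (1 + y) -
        (Chebyshev.T ℝ (d : ℤ)).eval (1 + y) := by
  induction d with
  | zero => simp
  | succ d ih =>
    obtain ⟨h1, h2⟩ := ih
    have h3 : (Chebyshev.T ℝ (((d + 1 : ℕ) : ℤ) + 1)).eval (1 + y) =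
        2 * (1 + y) * (Chebyshev.T ℝ ((d : ℤ) + 1)).eval (1 + y) -
          (Chebyshev.T ℝ (d : ℤ)).eval (1 + y) := by
      have : (((d + 1 : ℕ) : ℤ) + 1) = (d : ℤ) + 2 := by push_cast; ring
      rw [this, Chebyshev.T_add_two]
      simp
    have h4 : (((d + 1 : ℕ) : ℤ)) = (d : ℤ) + 1 := by push_cast; ring
    rw [h3, h4]
    push_cast
    have hd : (0 : ℝ) ≤ d := Nat.cast_nonneg d
    have h5 : 1 + ((d : ℝ) + 1) ^ 2 * y ≤ (Chebyshev.T ℝ ((d : ℤ) + 1)).eval (1 + y) := by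
      nlinarith
    refine ⟨h5, ?_⟩
    have h6 : 1 ≤ (Chebyshev.T ℝ ((d : ℤ) + 1)).eval (1 + y) := by
      have : 0 ≤ ((d : ℝ) + 1) ^ 2 * y := by positivity
      linarith
    nlinarith [mul_le_mul_of_nonneg_left h6 hy]

/-- T2. Chebyshev approximation of `1 / z` on `[μ, 1]`. -/
theorem exists_poly (μ : ℝ) (hμ0 : 0 < μ) (hμ1 : μ < 1) (d : ℕ) :
    ∃ q : Polynomial ℝ, q.natDegree ≤ d ∧
      ∀ z : ℝ, μ ≤ z → z ≤ 1 → |q.eval z * z - 1| ≤ 1 / (1 + 2 * μ * d ^ 2) := by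
  have h1μ : 0 < 1 - μ := by linarith
  set ℓ : Polynomial ℝ := C ((1 + μ) / (1 - μ)) + C (-2 / (1 - μ)) * X with hℓ
  set K : ℝ := (Chebyshev.T ℝ (d : ℤ)).eval ((1 + μ) / (1 - μ)) with hK
  have hy : (1 + μ) / (1 - μ) = 1 + 2 * μ / (1 - μ) := by field_simp; ring
  have hy2 : 2 * μ ≤ 2 * μ / (1 - μ) := by
    rw [le_div_iff₀ h1μ]; nlinarith
  have hK1 : 1 + 2 * μ * (d : ℝ) ^ 2 ≤ K := by
    rw [hK, hy]
    have := (T_growth (2 * μ / (1 - μ)) (by positivity) d).1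
    have h3 : (d : ℝ) ^ 2 * (2 * μ) ≤ (d : ℝ) ^ 2 * (2 * μ / (1 - μ)) :=
      mul_le_mul_of_nonneg_left hy2 (by positivity)
    linarith
  have hpos : 0 < 1 + 2 * μ * (d : ℝ) ^ 2 := by positivity
  have hK0 : 0 < K := lt_of_lt_of_le hpos hK1
  set P : Polynomial ℝ := 1 - C (1 / K) * (Chebyshev.T ℝ (d : ℤ)).comp ℓ with hP
  have hPdeg : P.natDegree ≤ d := by
    rw [hP]
    refine (natDegree_sub_le _ _).trans ?_
    rw [natDegree_one]
    apply max_le (Nat.zero_le _)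
    refine (natDegree_C_mul_le _ _).trans ?_
    refine natDegree_comp_le.trans ?_
    have h1 : (Chebyshev.T ℝ (d : ℤ)).natDegree ≤ d := by
      rw [Chebyshev.natDegree_T]; simp
    have h2 : ℓ.natDegree ≤ 1 := by
      rw [hℓ]
      refine (natDegree_add_le _ _).trans ?_
      apply max_le
      · simp
      · exact (natDegree_C_mul_le _ _).trans natDegree_X_le
    calc _ ≤ d * 1 := Nat.mul_le_mul h1 h2
      _ = d := by ring
  have hPev : ∀ z, P.eval z = 1 - (Chebyshev.T ℝ (d : ℤ)).eval (((1 + μ) - 2 * z) / (1 - μ)) / K := by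
    intro z
    rw [hP, hℓ]
    simp only [eval_sub, eval_one, eval_mul, eval_C, eval_comp, eval_add, eval_X]
    rw [show (1 + μ) / (1 - μ) + -2 / (1 - μ) * z = ((1 + μ) - 2 * z) / (1 - μ) by
      field_simp; ring]
    ring
  have hP0 : P.coeff 0 = 0 := by
    rw [coeff_zero_eq_eval_zero, hPev]
    simp only [mul_zero, sub_zero]
    rw [← hK, div_self hK0.ne']; ring
  have hdiv : P.divX * X = P := by
    have := divX_mul_X_add P
    rw [hP0] at this
    simpa using this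
  refine ⟨P.divX, ?_, ?_⟩
  · rw [natDegree_divX_eq_natDegree_tsub_one]
    omega
  · intro z hz1 hz2
    have h1 : P.divX.eval z * z = P.eval z := by
      conv_rhs => rw [← hdiv]
      simp
    rw [h1, hPev]
    have h2 : |(Chebyshev.T ℝ (d : ℤ)).eval (((1 + μ) - 2 * z) / (1 - μ))| ≤ 1 := by
      apply Chebyshev.abs_eval_T_real_le_one
      rw [abs_le]
      constructor
      · rw [le_div_iff₀ h1μ]; linarith
      · rw [div_le_iff₀ h1μ]; linarith
    have h3 : 1 - (Chebyshev.T ℝ (d : ℤ)).eval (((1 + μ) - 2 * z) / (1 - μ)) / K - 1 =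
        -((Chebyshev.T ℝ (d : ℤ)).eval (((1 + μ) - 2 * z) / (1 - μ)) / K) := by ring
    rw [h3, abs_neg, abs_div, abs_of_pos hK0]
    exact div_le_div₀ zero_le_one h2 hpos hK1

end Pool.Agent.H564R2.QF
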