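import Mathlib
import Pool.Agent.H564R2.QF.Defs

/-! T1: series-parallel networks. -/

namespace Pool.Agent.H564R2.QF

variable {V : Type}

namespace NetAux

/-- the conclusion of `exists_net` for a general predicate -/
def Net (V : Type) (P : (V → Bool) → Prop) (s a : ℝ) : Prop :=
  ∃ (ι : Type) (_ : Fintype ι) (lit : ι → V × Bool) (W : Submodule ℝ (Option ι → ℝ)),
    (∀ z : V → Bool, P z → ∃ y : ι → ℝ, (∀ e, z (lit e).1 ≠ (lit e).2 → y e = 0) ∧
      ∑ e, y e ^ 2 ≤ a ∧ ∀ w ∈ W, w none = ∑ e, y e * w (some e)) ∧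
    (∀ z : V → Bool, ¬ P z → ∃ w ∈ W, w none = 1 ∧
      (∀ e, z (lit e).1 = (lit e).2 → w (some e) = 0) ∧
      ∑ e, w (some e) ^ 2 ≤ s / a)

theorem Net.congr {P P' : (V → Bool) → Prop} {s a : ℝ} (h : Net V P s a) (hP : ∀ z, P z ↔ P' z) :
    Net V P' s a := by
  have : P = P' := funext fun z => propext (hP z)
  rwa [← this]

/-- the linear map of the series connection -/
def Ls (ι₁ ι₂ : Type) : ((Option ι₁ → ℝ) × (Option ι₂ → ℝ)) →ₗ[ℝ] (Option (ι₁ ⊕ ι₂) → ℝ) where
  toFun p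
    | none => p.1 none + p.2 none
    | some (.inl e) => p.1 (some e)
    | some (.inr e) => p.2 (some e)
  map_add' p q := by
    funext x
    rcases x with _ | (e | e)
    · simp; ring
    · simp
    · simp
  map_smul' c p := by
    funext x
    rcases x with _ | (e | e)
    · simp; ring
    · simp
    · simp

theorem Net.series {P₁ P₂ : (V → Bool) → Prop} {s₁ s₂ a₁ a₂ s a : ℝ} (h₁ : Net V P₁ s₁ a₁)
    (h₂ : Net V P₂ s₂ a₂) (ha : a₁ + a₂ ≤ a) (hs₁ : s₁ / a₁ ≤ s / a) (hs₂ : s₂ / a₂ ≤ s / a) :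
    Net V (fun z => P₁ z ∧ P₂ z) s a := by
  classical
  obtain ⟨ι₁, _, lit₁, W₁, A₁, B₁⟩ := h₁
  obtain ⟨ι₂, _, lit₂, W₂, A₂, B₂⟩ := h₂
  refine ⟨ι₁ ⊕ ι₂, inferInstance, Sum.elim lit₁ lit₂, (W₁.prod W₂).map (Ls ι₁ ι₂), ?_, ?_⟩
  · rintro z ⟨hz₁, hz₂⟩
    obtain ⟨y₁, hy₁, hs1, hw₁⟩ := A₁ z hz₁
    obtain ⟨y₂, hy₂, hs2, hw₂⟩ := A₂ z hz₂
    refine ⟨Sum.elim y₁ y₂, ?_, ?_, ?_⟩
    · rintro (e | e) he
      · exact hy₁ e he
      · exact hy₂ e he
    · rw [Fintype.sum_sum_type]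
      simp only [Sum.elim_inl, Sum.elim_inr]
      linarith
    · rintro w ⟨⟨w₁, w₂⟩, hw, rfl⟩
      rw [SetLike.mem_coe, Submodule.mem_prod] at hw
      rw [Fintype.sum_sum_type]
      show w₁ none + w₂ none = ∑ e, y₁ e * w₁ (some e) + ∑ e, y₂ e * w₂ (some e)
      rw [hw₁ w₁ hw.1, hw₂ w₂ hw.2]
  · intro z hz
    by_cases hz₁ : P₁ z
    · have hz₂ : ¬ P₂ z := fun h => hz ⟨hz₁, h⟩
      obtain ⟨w₂, hw₂, h1, h2, h3⟩ := B₂ z hz₂
      refine ⟨Ls ι₁ ι₂ (0, w₂), ⟨(0, w₂), ⟨W₁.zero_mem, hw₂⟩, rfl⟩, ?_, ?_, ?_⟩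
      · show (0 : Option ι₁ → ℝ) none + w₂ none = 1
        rw [h1]; simp
      · rintro (e | e) he
        · rfl
        · exact h2 e he
      · rw [Fintype.sum_sum_type]
        show ∑ e : ι₁, (0 : Option ι₁ → ℝ) (some e) ^ 2 + ∑ e, w₂ (some e) ^ 2 ≤ s / a
        simp only [Pi.zero_apply, ne_eq, OfNat.ofNat_ne_zero, not_false_eq_true, zero_pow,
          Finset.sum_const_zero, zero_add]
        exact h3.trans hs₂
    · obtain ⟨w₁, hw₁, h1, h2, h3⟩ := B₁ z hz₁
      refine ⟨Ls ι₁ ι₂ (w₁, 0), ⟨(w₁, 0), ⟨hw₁, W₂.zero_mem⟩, rfl⟩, ?_, ?_, ?_⟩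
      · show w₁ none + (0 : Option ι₂ → ℝ) none = 1
        rw [h1]; simp
      · rintro (e | e) he
        · exact h2 e he
        · rfl
      · rw [Fintype.sum_sum_type]
        show ∑ e, w₁ (some e) ^ 2 + ∑ e : ι₂, (0 : Option ι₂ → ℝ) (some e) ^ 2 ≤ s / a
        simp only [Pi.zero_apply, ne_eq, OfNat.ofNat_ne_zero, not_false_eq_true, zero_pow,
          Finset.sum_const_zero, add_zero]
        exact h3.trans hs₁

/-- restriction to one branch of a parallel connection -/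
def Lp {ι κ : Type} (f : κ → ι) : (Option ι → ℝ) →ₗ[ℝ] (Option κ → ℝ) :=
  LinearMap.funLeft ℝ ℝ (Option.map f)

theorem Net.parallel {P₁ P₂ : (V → Bool) → Prop} {s₁ s₂ s a : ℝ} (h₁ : Net V P₁ s₁ a)
    (h₂ : Net V P₂ s₂ a) (hs : s₁ + s₂ = s) :
    Net V (fun z => P₁ z ∨ P₂ z) s a := by
  classical
  obtain ⟨ι₁, _, lit₁, W₁, A₁, B₁⟩ := h₁
  obtain ⟨ι₂, _, lit₂, W₂, A₂, B₂⟩ := h₂
  refine ⟨ι₁ ⊕ ι₂, inferInstance, Sum.elim lit₁ lit₂,
    (W₁.comap (Lp Sum.inl)) ⊓ (W₂.comap (Lp Sum.inr)), ?_, ?_⟩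
  · rintro z (hz | hz)
    · obtain ⟨y₁, hy₁, hs1, hw₁⟩ := A₁ z hz
      refine ⟨Sum.elim y₁ 0, ?_, ?_, ?_⟩
      · rintro (e | e) he
        · exact hy₁ e he
        · rfl
      · rw [Fintype.sum_sum_type]
        simp only [Sum.elim_inl, Sum.elim_inr, Pi.zero_apply, ne_eq, OfNat.ofNat_ne_zero,
          not_false_eq_true, zero_pow, Finset.sum_const_zero, add_zero]
        exact hs1
      · rintro w ⟨hw, _⟩
        rw [Fintype.sum_sum_type]
        simp only [Sum.elim_inl, Sum.elim_inr, Pi.zero_apply, zero_mul, Finset.sum_const_zero,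
          add_zero]
        exact hw₁ _ hw
    · obtain ⟨y₂, hy₂, hs2, hw₂⟩ := A₂ z hz
      refine ⟨Sum.elim 0 y₂, ?_, ?_, ?_⟩
      · rintro (e | e) he
        · rfl
        · exact hy₂ e he
      · rw [Fintype.sum_sum_type]
        simp only [Sum.elim_inl, Sum.elim_inr, Pi.zero_apply, ne_eq, OfNat.ofNat_ne_zero,
          not_false_eq_true, zero_pow, Finset.sum_const_zero, zero_add]
        exact hs2
      · rintro w ⟨_, hw⟩
        rw [Fintype.sum_sum_type]
        simp only [Sum.elim_inl, Sum.elim_inr, Pi.zero_apply, zero_mul, Finset.sum_const_zero,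
          zero_add]
        exact hw₂ _ hw
  · intro z hz
    have hz₁ : ¬ P₁ z := fun h => hz (Or.inl h)
    have hz₂ : ¬ P₂ z := fun h => hz (Or.inr h)
    obtain ⟨w₁, hw₁, g1, g2, g3⟩ := B₁ z hz₁
    obtain ⟨w₂, hw₂, k1, k2, k3⟩ := B₂ z hz₂
    let w : Option (ι₁ ⊕ ι₂) → ℝ
      | none => 1
      | some (.inl e) => w₁ (some e)
      | some (.inr e) => w₂ (some e)
    refine ⟨w, ⟨?_, ?_⟩, rfl, ?_, ?_⟩
    · have : Lp Sum.inl w = w₁ := by
        funext x
        rcases x with _ | e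
        · exact g1.symm
        · rfl
      show Lp Sum.inl w ∈ W₁
      rw [this]; exact hw₁
    · have : Lp Sum.inr w = w₂ := by
        funext x
        rcases x with _ | e
        · exact k1.symm
        · rfl
      show Lp Sum.inr w ∈ W₂
      rw [this]; exact hw₂
    · rintro (e | e) he
      · exact g2 e he
      · exact k2 e he
    · rw [Fintype.sum_sum_type]
      show ∑ e, w₁ (some e) ^ 2 + ∑ e, w₂ (some e) ^ 2 ≤ s / a
      rw [← hs, add_div]
      exact add_le_add g3 k3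

theorem Net.const (c b : Bool) (a : ℝ) (ha : 0 ≤ a) :
    Net V (fun _ => c = b) 0 a := by
  by_cases h : c = b
  · refine ⟨Empty, inferInstance, fun e => e.elim, ⊥, ?_, ?_⟩
    · intro z _
      refine ⟨fun e => e.elim, fun e => e.elim, by simpa using ha, ?_⟩
      intro w hw
      rw [Submodule.mem_bot] at hw
      rw [hw]; simp
    · intro z hz
      exact absurd h hz
  · refine ⟨Empty, inferInstance, fun e => e.elim, ⊤, ?_, ?_⟩
    · intro z hz
      exact absurd hz h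
    · intro z _
      exact ⟨fun _ => 1, Submodule.mem_top, rfl, fun e => e.elim, by simp⟩

theorem Net.var (v : V) (b : Bool) (a : ℝ) (ha : 0 < a) :
    Net V (fun z => z v = b) 1 a := by
  have hs : 0 < Real.sqrt a := Real.sqrt_pos.mpr ha
  have hss : Real.sqrt a ^ 2 = a := Real.sq_sqrt ha.le
  let w₀ : Option Unit → ℝ
    | none => 1
    | some _ => 1 / Real.sqrt a
  refine ⟨Unit, inferInstance, fun _ => (v, b), Submodule.span ℝ {w₀}, ?_, ?_⟩
  · intro z hz
    refine ⟨fun _ => Real.sqrt a, fun e he => absurd hz he, by simp [hss], ?_⟩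
    intro w hw
    obtain ⟨c, rfl⟩ := Submodule.mem_span_singleton.mp hw
    simp only [Finset.univ_unique, Finset.sum_singleton]
    show c * 1 = Real.sqrt a * (c * (1 / Real.sqrt a))
    field_simp
  · intro z hz
    refine ⟨w₀, Submodule.mem_span_singleton_self _, rfl, fun e he => absurd he hz, ?_⟩
    simp only [Finset.univ_unique, Finset.sum_singleton]
    show (1 / Real.sqrt a) ^ 2 ≤ 1 / a
    rw [div_pow, one_pow, hss]

/-- distribution of the resistance over the two parts of a series connection -/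
theorem split (m n : ℕ) (a : ℝ) (ha : 0 ≤ a) (ha' : m + n ≠ 0 → 0 < a) :
    ∃ a₁ a₂ : ℝ, 0 ≤ a₁ ∧ (m ≠ 0 → 0 < a₁) ∧ 0 ≤ a₂ ∧ (n ≠ 0 → 0 < a₂) ∧ a₁ + a₂ ≤ a ∧
      (m : ℝ) / a₁ ≤ ((m + n : ℕ) : ℝ) / a ∧ (n : ℝ) / a₂ ≤ ((m + n : ℕ) : ℝ) / a := by
  by_cases h : m + n = 0
  · have hm : m = 0 := by omega
    have hn : n = 0 := by omega
    subst hm hn
    exact ⟨0, 0, le_rfl, fun h => absurd rfl h, le_rfl, fun h => absurd rfl h, by simpa using ha,
      by simp, by simp⟩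
  · have ha0 := ha' h
    have hmn : (0 : ℝ) < ((m + n : ℕ) : ℝ) := by exact_mod_cast Nat.pos_of_ne_zero h
    have key : ∀ k : ℕ, (k : ℝ) / (a * k / ((m + n : ℕ) : ℝ)) ≤ ((m + n : ℕ) : ℝ) / a := by
      intro k
      by_cases hk : k = 0
      · subst hk; simp; positivity
      · have hk0 : (0 : ℝ) < k := by exact_mod_cast Nat.pos_of_ne_zero hk
        apply le_of_eq
        field_simp
    refine ⟨a * m / ((m + n : ℕ) : ℝ), a * n / ((m + n : ℕ) : ℝ), by positivity, ?_, by positivity,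
      ?_, ?_, key m, key n⟩
    · intro hm
      have : (0 : ℝ) < m := by exact_mod_cast Nat.pos_of_ne_zero hm
      positivity
    · intro hm
      have : (0 : ℝ) < n := by exact_mod_cast Nat.pos_of_ne_zero hm
      positivity
    · rw [← add_div, ← mul_add]
      push_cast at hmn ⊢
      rw [mul_div_assoc, div_self hmn.ne', mul_one]

theorem net_all (φ : Fml V) : ∀ (b : Bool) (a : ℝ), 0 ≤ a → (φ.size ≠ 0 → 0 < a) →
    Net V (fun z => φ.eval z = b) φ.size a := by
  induction φ with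
  | const c =>
    intro b a ha _
    have := Net.const (V := V) c b a ha
    simpa [Fml.size, Fml.eval] using this
  | var v =>
    intro b a _ ha
    have := Net.var v b a (ha (by simp [Fml.size]))
    simpa [Fml.size, Fml.eval] using this
  | neg f ih =>
    intro b a ha ha'
    refine (ih (!b) a ha ha').congr fun z => ?_
    simp only [Fml.eval]
    cases f.eval z <;> cases b <;> simp
  | and f g ihf ihg =>
    intro b a ha ha'
    cases b with
    | true =>
      obtain ⟨a₁, a₂, h1, h2, h3, h4, h5, h6, h7⟩ := split f.size g.size a ha ha'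
      refine ((ihf true a₁ h1 h2).series (ihg true a₂ h3 h4) h5 h6 h7).congr fun z => ?_
      simp only [Fml.eval, Bool.and_eq_true]
    | false =>
      refine ((ihf false a ha (fun h => ha' (by simp [Fml.size]; omega))).parallel
        (ihg false a ha (fun h => ha' (by simp [Fml.size]; omega)))
        (s := ((Fml.and f g).size : ℝ)) (by simp [Fml.size])).congr fun z => ?_
      simp only [Fml.eval, Bool.and_eq_false_iff]
  | or f g ihf ihg =>
    intro b a ha ha'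
    cases b with
    | false =>
      obtain ⟨a₁, a₂, h1, h2, h3, h4, h5, h6, h7⟩ := split f.size g.size a ha ha'
      refine ((ihf false a₁ h1 h2).series (ihg false a₂ h3 h4) h5 h6 h7).congr fun z => ?_
      simp only [Fml.eval, Bool.or_eq_false_iff]
    | true =>
      refine ((ihf true a ha (fun h => ha' (by simp [Fml.size]; omega))).parallel
        (ihg true a ha (fun h => ha' (by simp [Fml.size]; omega)))
        (s := ((Fml.or f g).size : ℝ)) (by simp [Fml.size])).congr fun z => ?_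
      simp only [Fml.eval, Bool.or_eq_true]

end NetAux

open NetAux in
/-- T1, file Net.lean. Series-parallel networks. -/
theorem exists_net (φ : Fml V) : ∀ (b : Bool) (a : ℝ), 0 ≤ a → (φ.size ≠ 0 → 0 < a) →
    ∃ (ι : Type) (_ : Fintype ι) (lit : ι → V × Bool) (W : Submodule ℝ (Option ι → ℝ)),
      (∀ z : V → Bool, φ.eval z = b → ∃ y : ι → ℝ, (∀ e, z (lit e).1 ≠ (lit e).2 → y e = 0) ∧
        ∑ e, y e ^ 2 ≤ a ∧ ∀ w ∈ W, w none = ∑ e, y e * w (some e)) ∧
      (∀ z : V → Bool, φ.eval z ≠ b → ∃ w ∈ W, w none = 1 ∧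
        (∀ e, z (lit e).1 = (lit e).2 → w (some e) = 0) ∧
        ∑ e, w (some e) ^ 2 ≤ (φ.size : ℝ) / a) :=
  net_all φ

end Pool.Agent.H564R2.QF
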