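import Mathlib

/-! T3: polynomials in a symmetric matrix. -/

namespace Pool.Agent.H564R2.QF

open Matrix

namespace SpecAux

theorem poly_eig {r : ℕ} (N : Matrix (Fin r) (Fin r) ℝ) (v : Fin r → ℝ) (l : ℝ)
    (hN : N.mulVec v = l • v) (q : Polynomial ℝ) :
    (Polynomial.aeval N q).mulVec v = (q.eval l) • v := by
  have hpow : ∀ n : ℕ, (N ^ n).mulVec v = (l ^ n) • v := by
    intro n
    induction n with
    | zero => simp
    | succ n ih =>
      rw [pow_succ, ← Matrix.mulVec_mulVec, hN, Matrix.mulVec_smul, ih, smul_smul, pow_succ,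
        mul_comm]
  induction q using Polynomial.induction_on' with
  | add p q hp hq' =>
    rw [map_add, Matrix.add_mulVec, Polynomial.eval_add, add_smul, hp, hq']
  | monomial n a =>
    rw [Polynomial.aeval_monomial, Polynomial.eval_monomial, ← Algebra.smul_def,
      Matrix.smul_mulVec, hpow, smul_smul]

/-- abstract form: an orthonormal eigenbasis is given -/
theorem form_bound_aux {r : ℕ} (N : Matrix (Fin r) (Fin r) ℝ) (μ δ : ℝ) (hμ : 0 < μ)
    (hlo : ∀ c : Fin r → ℝ, μ * (c ⬝ᵥ c) ≤ c ⬝ᵥ (N.mulVec c))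
    (hhi : ∀ c : Fin r → ℝ, c ⬝ᵥ (N.mulVec c) ≤ c ⬝ᵥ c)
    (q : Polynomial ℝ) (hq : ∀ z : ℝ, μ ≤ z → z ≤ 1 → |q.eval z * z - 1| ≤ δ)
    (τ : Fin r → ℝ) (V : Fin r → (Fin r → ℝ)) (lam : Fin r → ℝ)
    (hV : ∀ i j, V i ⬝ᵥ V j = if i = j then 1 else 0)
    (hN : ∀ i, N.mulVec (V i) = lam i • V i)
    (c : Fin r → ℝ) (hτ : τ = ∑ i, c i • V i) :
    ∃ w : Fin r → ℝ, N.mulVec w = τ ∧ 0 ≤ τ ⬝ᵥ w ∧
      |τ ⬝ᵥ ((Polynomial.aeval N q).mulVec τ) - τ ⬝ᵥ w| ≤ δ * (τ ⬝ᵥ w) := by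
  have hlam : ∀ i, μ ≤ lam i ∧ lam i ≤ 1 := by
    intro i
    have h1 := hlo (V i)
    have h2 := hhi (V i)
    rw [hN, dotProduct_smul, hV, if_pos rfl, smul_eq_mul, mul_one] at h1 h2
    rw [mul_one] at h1
    exact ⟨h1, h2⟩
  have hlam0 : ∀ i, 0 < lam i := fun i => lt_of_lt_of_le hμ (hlam i).1
  have hdot : ∀ a b : Fin r → ℝ, (∑ i, a i • V i) ⬝ᵥ (∑ i, b i • V i) = ∑ i, a i * b i := by
    intro a b
    rw [sum_dotProduct]
    refine Finset.sum_congr rfl fun i _ => ?_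
    rw [dotProduct_sum, Finset.sum_eq_single i]
    · rw [smul_dotProduct, dotProduct_smul, hV, if_pos rfl]
      simp
    · intro j _ hj
      rw [smul_dotProduct, dotProduct_smul, hV, if_neg (Ne.symm hj)]
      simp
    · intro h; exact absurd (Finset.mem_univ i) h
  have hmul : ∀ (A : Matrix (Fin r) (Fin r) ℝ) (l a : Fin r → ℝ), (∀ i, A.mulVec (V i) = l i • V i) →
      A.mulVec (∑ i, a i • V i) = ∑ i, (a i * l i) • V i := by
    intro A l a hA
    rw [Matrix.mulVec_sum]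
    refine Finset.sum_congr rfl fun i _ => ?_
    rw [Matrix.mulVec_smul, hA, smul_smul]
  have hpoly : ∀ i, (Polynomial.aeval N q).mulVec (V i) = (q.eval (lam i)) • V i :=
    fun i => poly_eig N (V i) (lam i) (hN i) q
  have hτw : τ ⬝ᵥ (∑ i, (c i / lam i) • V i) = ∑ i, c i ^ 2 / lam i := by
    rw [hτ, hdot]
    exact Finset.sum_congr rfl fun i _ => by ring
  have hnn : ∀ i, 0 ≤ c i ^ 2 / lam i := fun i => div_nonneg (sq_nonneg _) (hlam0 i).le
  refine ⟨∑ i, (c i / lam i) • V i, ?_, ?_, ?_⟩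
  · rw [hmul N lam _ hN, hτ]
    refine Finset.sum_congr rfl fun i _ => ?_
    rw [div_mul_cancel₀ _ (hlam0 i).ne']
  · rw [hτw]
    exact Finset.sum_nonneg fun i _ => hnn i
  · rw [hτw]
    have h1 : τ ⬝ᵥ ((Polynomial.aeval N q).mulVec τ) = ∑ i, c i * (c i * q.eval (lam i)) := by
      rw [hτ, hmul _ (fun i => q.eval (lam i)) _ hpoly, hdot]
    rw [h1, ← Finset.sum_sub_distrib, Finset.mul_sum]
    refine (Finset.abs_sum_le_sum_abs _ _).trans (Finset.sum_le_sum fun i _ => ?_)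
    have h2 : c i * (c i * q.eval (lam i)) - c i ^ 2 / lam i
        = (q.eval (lam i) * lam i - 1) * (c i ^ 2 / lam i) := by
      have := (hlam0 i).ne'
      field_simp
    rw [h2, abs_mul, abs_of_nonneg (hnn i)]
    exact mul_le_mul_of_nonneg_right (hq _ (hlam i).1 (hlam i).2) (hnn i)

end SpecAux

open SpecAux in
/-- T3, file Spec.lean. Polynomials in a symmetric matrix. -/
theorem form_bound {r : ℕ} (N : Matrix (Fin r) (Fin r) ℝ) (hN : N.IsSymm) (μ δ : ℝ) (hμ : 0 < μ)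
    (hlo : ∀ c : Fin r → ℝ, μ * (c ⬝ᵥ c) ≤ c ⬝ᵥ (N.mulVec c))
    (hhi : ∀ c : Fin r → ℝ, c ⬝ᵥ (N.mulVec c) ≤ c ⬝ᵥ c)
    (q : Polynomial ℝ) (hq : ∀ z : ℝ, μ ≤ z → z ≤ 1 → |q.eval z * z - 1| ≤ δ)
    (τ : Fin r → ℝ) :
    ∃ w : Fin r → ℝ, N.mulVec w = τ ∧ 0 ≤ τ ⬝ᵥ w ∧
      |τ ⬝ᵥ ((Polynomial.aeval N q).mulVec τ) - τ ⬝ᵥ w| ≤ δ * (τ ⬝ᵥ w) := by
  have hH : N.IsHermitian := by
    rw [Matrix.IsHermitian, Matrix.conjTranspose_eq_transpose_of_trivial]
    exact hN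
  let b := hH.eigenvectorBasis
  apply form_bound_aux N μ δ hμ hlo hhi q hq τ (fun i => WithLp.ofLp (b i)) hH.eigenvalues
  · intro i j
    have h := orthonormal_iff_ite.mp b.orthonormal j i
    rw [EuclideanSpace.inner_eq_star_dotProduct] at h
    simp only [star_trivial] at h
    rw [h]
    by_cases hij : i = j
    · rw [if_pos hij, if_pos hij.symm]
    · rw [if_neg hij, if_neg (Ne.symm hij)]
  · intro i
    exact hH.mulVec_eigenvectorBasis i
  · show τ = ∑ i, (b.repr (WithLp.toLp 2 τ)) i • WithLp.ofLp (b i)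
    have h := b.sum_repr (WithLp.toLp 2 τ)
    have h2 := congrArg WithLp.ofLp h
    rw [WithLp.ofLp_sum] at h2
    simp only [WithLp.ofLp_smul] at h2
    exact h2.symm

end Pool.Agent.H564R2.QF
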