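import Mathlib
import Pool.Agent.H564R2.QF.Defs
import Pool.Agent.H564R2.QF.Net
import Pool.Agent.H564R2.QF.Cheb
import Pool.Agent.H564R2.QF.Spec

/-!
# Formulas of size `T ^ 2` have approximate degree `O(T)`
-/

namespace Pool.Agent.H564R2.QF


variable {V : Type}

/-- Orthonormal basis of a subspace of `ℝ^ι`, in coordinates. -/
private lemma exists_onb {ι : Type} [Fintype ι] (W : Submodule ℝ (ι → ℝ)) :
    ∃ (r : ℕ) (b : Fin r → ι → ℝ), (∀ i, b i ∈ W) ∧
      (∀ i j, ∑ e, b i e * b j e = if i = j then 1 else 0) ∧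
      ∀ w ∈ W, ∃ c : Fin r → ℝ, ∀ e, w e = ∑ i, c i * b i e := by
  classical
  let W' : Submodule ℝ (EuclideanSpace ℝ ι) :=
    W.map (WithLp.linearEquiv 2 ℝ (ι → ℝ)).symm.toLinearMap
  let B := stdOrthonormalBasis ℝ W'
  refine ⟨Module.finrank ℝ W', fun i e => (B i : EuclideanSpace ℝ ι) e, fun i => ?_,
    fun i j => ?_, fun w hw => ?_⟩
  · obtain ⟨x, hx, hx2⟩ := Submodule.mem_map.1 (B i).2
    have : (fun e => (B i : EuclideanSpace ℝ ι) e) = x := by
      rw [← hx2]; rfl
    change (fun e => (B i : EuclideanSpace ℝ ι) e) ∈ W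
    rw [this]; exact hx
  · have h1 := orthonormal_iff_ite.1 B.orthonormal i j
    rw [Submodule.coe_inner, PiLp.inner_apply] at h1
    rw [← h1]
    refine Finset.sum_congr rfl fun e _ => ?_
    simp [mul_comm]
  · let w' : W' := ⟨(WithLp.linearEquiv 2 ℝ (ι → ℝ)).symm w, Submodule.mem_map.2 ⟨w, hw, rfl⟩⟩
    refine ⟨fun i => B.repr w' i, fun e => ?_⟩
    have h1 := B.sum_repr w'
    have h2 := congrArg (fun v : W' => (v : EuclideanSpace ℝ ι) e) h1
    simp only [Submodule.coe_sum, Submodule.coe_smul] at h2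
    have h3 : (w' : EuclideanSpace ℝ ι) e = w e := rfl
    rw [h3] at h2
    rw [← h2]
    simp

section

variable {κ : Type} [Fintype κ] {r : ℕ}

/-- Linear combination of the basis functions. -/
private def Lc (b : Fin r → κ → ℝ) (c : Fin r → ℝ) (e : κ) : ℝ := ∑ i, c i * b i e

/-- The matrix of the weighted form. -/
private def Nm (b : Fin r → κ → ℝ) (D : κ → ℝ) : Matrix (Fin r) (Fin r) ℝ :=
  fun i j => ∑ e, D e * b i e * b j e

private lemma Nm_symm (b : Fin r → κ → ℝ) (D : κ → ℝ) : (Nm b D).IsSymm := by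
  ext i j
  simp only [Matrix.transpose_apply, Nm]
  exact Finset.sum_congr rfl fun e _ => by ring

private lemma Nm_bil (b : Fin r → κ → ℝ) (D : κ → ℝ) (c c' : Fin r → ℝ) :
    c ⬝ᵥ (Nm b D).mulVec c' = ∑ e, D e * (Lc b c e * Lc b c' e) := by
  simp only [dotProduct, Matrix.mulVec, Nm, Lc]
  have h1 : ∀ e, D e * ((∑ i, c i * b i e) * ∑ i, c' i * b i e) =
      ∑ i, ∑ j, c i * (D e * b i e * b j e * c' j) := by
    intro e
    rw [Finset.sum_mul_sum, Finset.mul_sum]
    refine Finset.sum_congr rfl fun i _ => ?_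
    rw [Finset.mul_sum]
    refine Finset.sum_congr rfl fun j _ => ?_
    ring
  simp_rw [h1]
  rw [Finset.sum_comm]
  refine Finset.sum_congr rfl fun i _ => ?_
  rw [Finset.mul_sum, Finset.sum_comm]
  refine Finset.sum_congr rfl fun j _ => ?_
  rw [Finset.sum_mul, Finset.mul_sum]

private lemma dot_eq (b : Fin r → κ → ℝ)
    (hb : ∀ i j, ∑ e, b i e * b j e = if i = j then 1 else 0) (c : Fin r → ℝ) :
    c ⬝ᵥ c = ∑ e, Lc b c e * Lc b c e := by
  classical
  have h1 : Nm b (fun _ => 1) = 1 := by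
    ext i j
    simp only [Nm, one_mul]
    rw [hb i j, Matrix.one_apply]
  have h2 := Nm_bil b (fun _ => 1) c c
  rw [h1, Matrix.one_mulVec] at h2
  rw [h2]
  simp

end

/-- Entries of powers of a matrix with entries of degree one. -/
private lemma pow_mem {r : ℕ} (N : (V → Bool) → Matrix (Fin r) (Fin r) ℝ)
    (hN : ∀ i j, (fun z => N z i j) ∈ LowDeg V 1) (k : ℕ) :
    ∀ i j, (fun z => (N z ^ k) i j) ∈ LowDeg V k := by
  induction k with
  | zero =>
    intro i j
    have : (fun z => (N z ^ 0) i j) = fun _ : V → Bool => (1 : Matrix (Fin r) (Fin r) ℝ) i j := by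
      funext z; rw [pow_zero]
    rw [this]
    exact LowDeg.const 0 _
  | succ k ih =>
    intro i j
    have : (fun z => (N z ^ (k + 1)) i j) =
        ∑ l, (fun z => (N z ^ k) i l) * (fun z => N z l j) := by
      funext z
      rw [pow_succ, Matrix.mul_apply, Finset.sum_apply]
      rfl
    rw [this]
    exact Submodule.sum_mem _ fun l _ => LowDeg.mul (ih i l) (hN l j)

private lemma aeval_mem {r : ℕ} (N : (V → Bool) → Matrix (Fin r) (Fin r) ℝ)
    (hN : ∀ i j, (fun z => N z i j) ∈ LowDeg V 1) (q : Polynomial ℝ) (d : ℕ)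
    (hq : q.natDegree ≤ d) (τ : Fin r → ℝ) :
    (fun z => τ ⬝ᵥ ((Polynomial.aeval (N z) q).mulVec τ)) ∈ LowDeg V d := by
  have h1 : (fun z => τ ⬝ᵥ ((Polynomial.aeval (N z) q).mulVec τ)) =
      ∑ i, ∑ j, ∑ k ∈ Finset.range (q.natDegree + 1),
        (τ i * τ j * q.coeff k) • (fun z => (N z ^ k) i j) := by
    funext z
    simp only [Finset.sum_apply, Pi.smul_apply, smul_eq_mul, dotProduct, Matrix.mulVec]
    refine Finset.sum_congr rfl fun i _ => ?_
    rw [Finset.mul_sum]
    refine Finset.sum_congr rfl fun j _ => ?_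
    rw [Polynomial.aeval_eq_sum_range, Matrix.sum_apply, Finset.sum_mul, Finset.mul_sum]
    refine Finset.sum_congr rfl fun k _ => ?_
    rw [Matrix.smul_apply, smul_eq_mul]
    ring
  rw [h1]
  refine Submodule.sum_mem _ fun i _ => Submodule.sum_mem _ fun j _ =>
    Submodule.sum_mem _ fun k hk => Submodule.smul_mem _ _ ?_
  exact LowDeg.of_le (pow_mem N hN k i j) (by
    have := Finset.mem_range.1 hk
    omega)

/-- T4, file Const.lean (uses T1, T2, T3). Formulas of size `T ^ 2` have approximate degree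
`O(T)`. -/
theorem approx_const (φ : Fml V) (T : ℕ) (hT : 1 ≤ T) (hs : φ.size ≤ T ^ 2) :
    ∃ p ∈ LowDeg V (180 * T), ∀ z, 0 ≤ p z ∧ p z ≤ 1 ∧
      (φ.eval z = true → 15 / 16 ≤ p z) ∧ (φ.eval z = false → p z ≤ 1 / 16) := by
  classical
  obtain ⟨ι, hι, lit, W, hW0, hW1⟩ := exists_net φ false (1 / 16) (by norm_num)
    (fun _ => by norm_num)
  obtain ⟨r, b, hbW, hbo, hbs⟩ := exists_onb W
  have hT' : (1 : ℝ) ≤ T := by exact_mod_cast hT
  set μ : ℝ := 1 / (1024 * (T : ℝ) ^ 2) with hμ
  have hμ0 : 0 < μ := by positivity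
  have hT2 : (1 : ℝ) ≤ (T : ℝ) ^ 2 := by nlinarith
  have hμT : μ * (T : ℝ) ^ 2 = 1 / 1024 := by
    rw [hμ]; field_simp
  have hμ1 : μ < 1 := by nlinarith
  obtain ⟨q, hqd, hq⟩ := exists_poly μ hμ0 hμ1 (180 * T)
  set δ : ℝ := 1 / (1 + 2 * μ * ((180 * T : ℕ) : ℝ) ^ 2) with hδ
  have hδ1 : δ ≤ 1 / 64 := by
    rw [hδ]
    apply one_div_le_one_div_of_le (by norm_num)
    push_cast
    have : 2 * μ * (180 * (T : ℝ)) ^ 2 = 64800 * (μ * (T : ℝ) ^ 2) := by ring
    rw [this, hμT]
    norm_num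
  have hδ0 : 0 < δ := by positivity
  -- the diagonal matrices
  let Dz : (V → Bool) → Option ι → ℝ := fun z e => match e with
    | none => 1
    | some e => if z (lit e).1 = (lit e).2 then 1 else μ
  have hD1 : ∀ z e, Dz z e ≤ 1 := by
    intro z e
    cases e with
    | none => exact le_rfl
    | some e =>
      change (if z (lit e).1 = (lit e).2 then 1 else μ) ≤ 1
      split_ifs
      · exact le_rfl
      · exact hμ1.le
  have hDμ : ∀ z e, μ ≤ Dz z e := by
    intro z e
    cases e with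
    | none => exact hμ1.le
    | some e =>
      change μ ≤ (if z (lit e).1 = (lit e).2 then 1 else μ)
      split_ifs
      · exact hμ1.le
      · exact le_rfl
  have hD0 : ∀ z e, 0 ≤ Dz z e := fun z e => hμ0.le.trans (hDμ z e)
  let N : (V → Bool) → Matrix (Fin r) (Fin r) ℝ := fun z => Nm b (Dz z)
  let τ : Fin r → ℝ := fun i => b i none
  have hτ : ∀ c : Fin r → ℝ, τ ⬝ᵥ c = Lc b c none := by
    intro c
    simp only [dotProduct, τ, Lc]
    exact Finset.sum_congr rfl fun i _ => mul_comm _ _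
  -- entries have degree one
  have hDmem : ∀ e, (fun z => Dz z e) ∈ LowDeg V 1 := by
    intro e
    cases e with
    | none => exact LowDeg.const 1 1
    | some e =>
      have h1 : (fun z => Dz z (some e)) = (fun _ : V → Bool => μ) +
          (1 - μ) • (fun z : V → Bool => if z (lit e).1 = (lit e).2 then (1 : ℝ) else 0) := by
        funext z
        simp only [Dz, Pi.add_apply, Pi.smul_apply, smul_eq_mul]
        split_ifs <;> ring
      rw [h1]
      exact Submodule.add_mem _ (LowDeg.const 1 μ) (Submodule.smul_mem _ _ (LowDeg.lit _ _))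
  have hNmem : ∀ i j, (fun z => N z i j) ∈ LowDeg V 1 := by
    intro i j
    have h1 : (fun z => N z i j) = ∑ e, (b i e * b j e) • (fun z => Dz z e) := by
      funext z
      simp only [N, Nm, Finset.sum_apply, Pi.smul_apply, smul_eq_mul]
      exact Finset.sum_congr rfl fun e _ => by ring
    rw [h1]
    exact Submodule.sum_mem _ fun e _ => Submodule.smul_mem _ _ (hDmem e)
  -- membership of combinations
  have hLW : ∀ c : Fin r → ℝ, Lc b c ∈ W := by
    intro c
    have h1 : Lc b c = ∑ i, c i • b i := by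
      funext e
      simp [Lc]
    rw [h1]
    exact Submodule.sum_mem _ fun i _ => Submodule.smul_mem _ _ (hbW i)
  -- the key facts for each z
  have key : ∀ z, ∃ R : ℝ, 0 ≤ R ∧ R ≤ 1 ∧
      |τ ⬝ᵥ ((Polynomial.aeval (N z) q).mulVec τ) - R| ≤ δ * R ∧
      (φ.eval z = false → R ≤ 1 / 16) ∧ (φ.eval z = true → 64 / 65 ≤ R) := by
    intro z
    obtain ⟨w, hw1, hw2, hw3⟩ := form_bound (N z) (Nm_symm b (Dz z)) μ δ hμ0
      (fun c => by
        rw [Nm_bil, dot_eq b hbo, Finset.mul_sum]
        exact Finset.sum_le_sum fun e _ =>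
          mul_le_mul_of_nonneg_right (hDμ z e) (mul_self_nonneg _))
      (fun c => by
        rw [Nm_bil, dot_eq b hbo]
        refine Finset.sum_le_sum fun e _ => ?_
        calc Dz z e * (Lc b c e * Lc b c e) ≤ 1 * (Lc b c e * Lc b c e) :=
              mul_le_mul_of_nonneg_right (hD1 z e) (mul_self_nonneg _)
          _ = _ := one_mul _)
      q hq τ
    set R : ℝ := τ ⬝ᵥ w with hR
    have hRn : R = Lc b w none := by rw [hR, hτ]
    have hRs : R = ∑ e, Dz z e * (Lc b w e * Lc b w e) := by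
      rw [hR, ← hw1, dotProduct_comm, Nm_bil]
    have hRo : R = Lc b w none * Lc b w none +
        ∑ e, Dz z (some e) * (Lc b w (some e) * Lc b w (some e)) := by
      rw [hRs, Fintype.sum_option]
      simp [Dz]
    have hrest : 0 ≤ ∑ e, Dz z (some e) * (Lc b w (some e) * Lc b w (some e)) :=
      Finset.sum_nonneg fun e _ => mul_nonneg (hD0 z (some e)) (mul_self_nonneg _)
    have hR1 : R ≤ 1 := by
      have h1 : R * R ≤ R := by
        calc R * R = Lc b w none * Lc b w none := by rw [← hRn]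
          _ ≤ R := by rw [hRo]; linarith
      by_contra hcon
      push Not at hcon
      nlinarith
    refine ⟨R, hw2, hR1, hw3, fun hz => ?_, fun hz => ?_⟩
    · -- false case
      obtain ⟨y, hy0, hy1, hy2⟩ := hW0 z hz
      have h1 : R = ∑ e, y e * ((if z (lit e).1 = (lit e).2 then 1 else 0) *
          Lc b w (some e)) := by
        rw [hRn, hy2 _ (hLW w)]
        refine Finset.sum_congr rfl fun e _ => ?_
        split_ifs with h
        · rw [one_mul]
        · rw [hy0 e h]; ring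
      have h2 : R ^ 2 ≤ (∑ e, y e ^ 2) * ∑ e, ((if z (lit e).1 = (lit e).2 then 1 else 0) *
          Lc b w (some e)) ^ 2 := by
        rw [h1]
        exact Finset.sum_mul_sq_le_sq_mul_sq _ _ _
      have h3 : ∑ e, ((if z (lit e).1 = (lit e).2 then (1 : ℝ) else 0) *
          Lc b w (some e)) ^ 2 ≤ R := by
        rw [hRo]
        have h4 : ∑ e, ((if z (lit e).1 = (lit e).2 then (1 : ℝ) else 0) *
          Lc b w (some e)) ^ 2 ≤ ∑ e, Dz z (some e) * (Lc b w (some e) * Lc b w (some e)) := by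
          refine Finset.sum_le_sum fun e _ => ?_
          simp only [Dz]
          split_ifs with h
          · rw [one_mul, one_mul, sq]
          · rw [zero_mul]
            simpa using mul_nonneg hμ0.le (mul_self_nonneg (Lc b w (some e)))
        linarith [mul_self_nonneg (Lc b w none)]
      have h5 : 0 ≤ ∑ e, ((if z (lit e).1 = (lit e).2 then (1 : ℝ) else 0) *
          Lc b w (some e)) ^ 2 := Finset.sum_nonneg fun e _ => sq_nonneg _
      have h6 : R ^ 2 ≤ 1 / 16 * R :=
        h2.trans (mul_le_mul hy1 h3 h5 (by norm_num))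
      by_contra hcon
      push Not at hcon
      nlinarith
    · -- true case
      have hz' : φ.eval z ≠ false := by rw [hz]; decide
      obtain ⟨v, hv, hv1, hv2, hv3⟩ := hW1 z hz'
      obtain ⟨c, hc⟩ := hbs v hv
      have hc' : ∀ e, v e = Lc b c e := hc
      have h1 : (1 : ℝ) = ∑ e, Dz z e * (Lc b c e * Lc b w e) := by
        rw [← Nm_bil, hw1, dotProduct_comm, hτ, ← hc', hv1]
      have h2 : (∑ e, Dz z e * (Lc b c e * Lc b w e)) ^ 2 ≤
          (∑ e, Dz z e * (Lc b c e * Lc b c e)) * ∑ e, Dz z e * (Lc b w e * Lc b w e) :=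
        Finset.sum_sq_le_sum_mul_sum_of_sq_le_mul _
          (fun e _ => mul_nonneg (hD0 z e) (mul_self_nonneg _))
          (fun e _ => mul_nonneg (hD0 z e) (mul_self_nonneg _))
          (fun e _ => le_of_eq (by ring))
      rw [← h1, ← hRs] at h2
      have h3 : ∑ e, Dz z e * (Lc b c e * Lc b c e) ≤ 65 / 64 := by
        rw [Fintype.sum_option]
        simp_rw [← hc']
        rw [hv1]
        have h4 : ∑ e, Dz z (some e) * (v (some e) * v (some e)) ≤
            ∑ e, μ * v (some e) ^ 2 := by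
          refine Finset.sum_le_sum fun e _ => ?_
          simp only [Dz]
          split_ifs with h
          · rw [hv2 e h]; simp
          · rw [sq]
        rw [← Finset.mul_sum] at h4
        have h5 : μ * ∑ e, v (some e) ^ 2 ≤ μ * ((φ.size : ℝ) / (1 / 16)) :=
          mul_le_mul_of_nonneg_left hv3 hμ0.le
        have h6 : (φ.size : ℝ) ≤ (T : ℝ) ^ 2 := by exact_mod_cast hs
        have h7 : μ * ((φ.size : ℝ) / (1 / 16)) ≤ 1 / 64 := by
          have : μ * ((φ.size : ℝ) / (1 / 16)) = 16 * (μ * (φ.size : ℝ)) := by ring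
          rw [this]
          have := mul_le_mul_of_nonneg_left h6 hμ0.le
          rw [hμT] at this
          linarith
        have h8 : Dz z none * (1 * 1) = 1 := by simp [Dz]
        rw [h8]
        linarith
      have h9 : (1 : ℝ) ≤ 65 / 64 * R := by
        calc (1 : ℝ) = 1 ^ 2 := by norm_num
          _ ≤ _ := h2
          _ ≤ _ := mul_le_mul_of_nonneg_right h3 hw2
      linarith
  refine ⟨(1 + δ)⁻¹ • (fun z => τ ⬝ᵥ ((Polynomial.aeval (N z) q).mulVec τ)),
    Submodule.smul_mem _ _ (aeval_mem N hNmem q _ hqd τ), fun z => ?_⟩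
  obtain ⟨R, hR0, hR1, hR2, hR3, hR4⟩ := key z
  rw [abs_le] at hR2
  simp only [Pi.smul_apply, smul_eq_mul]
  set P : ℝ := τ ⬝ᵥ ((Polynomial.aeval (N z) q).mulVec τ)
  have hP1 : P ≤ (1 + δ) * R := by linarith [hR2.2]
  have hP2 : (1 - δ) * R ≤ P := by linarith [hR2.1]
  have hpos : 0 < 1 + δ := by linarith
  have hle : (1 + δ)⁻¹ * P ≤ R := by
    rw [inv_mul_le_iff₀ hpos]
    exact hP1
  refine ⟨?_, hle.trans hR1, fun hz => ?_, fun hz => hle.trans (hR3 hz)⟩
  · apply mul_nonneg (inv_nonneg.2 hpos.le)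
    refine le_trans (mul_nonneg ?_ hR0) hP2
    linarith
  · have h1 := hR4 hz
    rw [inv_mul_eq_div, le_div_iff₀ hpos]
    have h2 : (63 / 64 : ℝ) * (64 / 65) ≤ (1 - δ) * R :=
      mul_le_mul (by linarith) h1 (by norm_num) (by linarith)
    have h3 : 15 / 16 * (1 + δ) ≤ 15 / 16 * (65 / 64) := by
      apply mul_le_mul_of_nonneg_left _ (by norm_num)
      linarith
    calc 15 / 16 * (1 + δ) ≤ 15 / 16 * (65 / 64) := h3
      _ ≤ (63 / 64 : ℝ) * (64 / 65) := by norm_num
      _ ≤ (1 - δ) * R := h2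
      _ ≤ P := hP2

end Pool.Agent.H564R2.QF
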