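import Pool.Agent.H564R2.QF.ApproxOf
import Pool.Agent.H564R2.QF.Const
import Pool.Agent.H564R2.QF.Decomp
import Pool.Agent.H564R2.QF.Robust

namespace Pool.Agent.H564R2.QF

variable {V : Type}

/-- A formula of size `k * T ^ 2` is approximated within `4 ^ (-k)` by a function of degree
`O(k * T)`. -/
theorem formula_approx (φ : Fml V) (k T : ℕ) (hk : 1 ≤ k) (hT : 1 ≤ T) (hs : φ.size ≤ k * T ^ 2) :
    ∃ P ∈ LowDeg V (12780 * k * T), ∀ z,
      |P z - (if φ.eval z = true then 1 else 0)| ≤ (1 / 4) ^ k :=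
  formula_approx_of approx_const decomp robust φ k T hk hT hs

end Pool.Agent.H564R2.QF
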