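import Pool.Agent.H564R2.QF.Defs

/-!
# Decision lists computing the parity function

If in a decision list which computes the parity of `n` bits all the `L` queries are approximated
within `4 ^ (-m)` by functions of degree at most `n / 16`, then `4 ^ m ≤ 10 * L`.
-/

namespace Pool.Agent.H564R2.QF

variable {V : Type}

/-- Flip the bits of `A`. -/
def flip [DecidableEq V] (A : Finset V) (x : V → Bool) : V → Bool :=
  fun v => if v ∈ A then !x v else x v

/-- the derivative in the directions `U` -/
noncomputable def der [DecidableEq V] (U : Finset V) (f : (V → Bool) → ℝ) (x : V → Bool) : ℝ :=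
  ∑ A ∈ U.powerset, (-1 : ℝ) ^ A.card * f (flip A x)

/-- an expansion in characters -/
lemma LowDeg.expand [Fintype V] [DecidableEq V] {D : ℕ} {f : (V → Bool) → ℝ}
    (hf : f ∈ LowDeg V D) :
    ∃ c : Finset V → ℝ, (∀ S, D < S.card → c S = 0) ∧ ∀ x, f x = ∑ S, c S * chi S x := by
  induction hf using Submodule.span_induction with
  | mem f hf =>
    obtain ⟨S, hS, rfl⟩ := hf
    refine ⟨fun T => if T = S then 1 else 0, ?_, ?_⟩
    · intro T hT
      have hne : T ≠ S := by
        rintro rfl
        omega
      simp [hne]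
    · intro x
      simp
  | zero => exact ⟨fun _ => 0, fun _ _ => rfl, by simp⟩
  | add a b _ _ ha hb =>
    obtain ⟨c, hc, hc2⟩ := ha
    obtain ⟨c', hc', hc2'⟩ := hb
    refine ⟨fun S => c S + c' S, fun S hS => by simp [hc S hS, hc' S hS], fun x => ?_⟩
    simp only [Pi.add_apply, hc2, hc2', add_mul, Finset.sum_add_distrib]
  | smul t a _ ha =>
    obtain ⟨c, hc, hc2⟩ := ha
    refine ⟨fun S => t * c S, fun S hS => by simp [hc S hS], fun x => ?_⟩
    simp only [Pi.smul_apply, smul_eq_mul, hc2, Finset.mul_sum, mul_assoc]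

lemma chi_flip [DecidableEq V] (A S : Finset V) (x : V → Bool) :
    chi S (flip A x) = (-1 : ℝ) ^ (S ∩ A).card * chi S x := by
  have h : ∀ v ∈ S, (if flip A x v = true then (-1 : ℝ) else 1) =
      (if v ∈ A then -1 else 1) * (if x v = true then (-1 : ℝ) else 1) := by
    intro v _
    unfold flip
    by_cases h : v ∈ A
    · simp only [if_pos h]
      cases x v <;> norm_num
    · simp only [if_neg h]
      cases x v <;> norm_num
  unfold chi
  rw [Finset.prod_congr rfl h, Finset.prod_mul_distrib]
  congr 1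
  rw [Finset.prod_ite_mem]
  simp

lemma der_chi [DecidableEq V] (U S : Finset V) (x : V → Bool) :
    der U (chi S) x = if U ⊆ S then (2 : ℝ) ^ U.card * chi S x else 0 := by
  have h : ∀ A ∈ U.powerset, (-1 : ℝ) ^ A.card * chi S (flip A x) =
      (∏ v ∈ A, (if v ∈ S then (1 : ℝ) else -1)) * chi S x := by
    intro A _
    rw [chi_flip, ← mul_assoc]
    congr 1
    have h1 : (-1 : ℝ) ^ (S ∩ A).card = ∏ v ∈ A, (if v ∈ S then (-1 : ℝ) else 1) := by
      rw [Finset.prod_ite_mem, Finset.prod_const, Finset.inter_comm]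
    have h2 : (-1 : ℝ) ^ A.card = ∏ _v ∈ A, (-1 : ℝ) := by rw [Finset.prod_const]
    rw [h1, h2, ← Finset.prod_mul_distrib]
    apply Finset.prod_congr rfl
    intro v _
    split_ifs <;> norm_num
  unfold der
  rw [Finset.sum_congr rfl h, ← Finset.sum_mul]
  have h3 : ∑ A ∈ U.powerset, ∏ v ∈ A, (if v ∈ S then (1 : ℝ) else -1) =
      ∏ v ∈ U, ((if v ∈ S then (1 : ℝ) else -1) + 1) := by
    rw [Finset.prod_add]
    simp
  rw [h3]
  split_ifs with hU
  · congr 1
    rw [Finset.prod_congr rfl (fun v hv => by rw [if_pos (hU hv)])]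
    rw [Finset.prod_const]
    norm_num
  · obtain ⟨v, hv, hvS⟩ := Finset.not_subset.1 hU
    rw [Finset.prod_eq_zero hv (by rw [if_neg hvS]; norm_num), zero_mul]

lemma der_add [DecidableEq V] (U : Finset V) (f g : (V → Bool) → ℝ) (x : V → Bool) :
    der U (fun z => f z + g z) x = der U f x + der U g x := by
  unfold der
  rw [← Finset.sum_add_distrib]
  exact Finset.sum_congr rfl fun A _ => by ring

lemma der_sum [Fintype V] [DecidableEq V] (U : Finset V) (c : Finset V → ℝ) (x : V → Bool) :
    der U (fun z => ∑ S, c S * chi S z) x =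
      ∑ S, (if U ⊆ S then c S * 2 ^ U.card else 0) * chi S x := by
  have h : der U (fun z => ∑ S, c S * chi S z) x = ∑ S, c S * der U (chi S) x := by
    unfold der
    simp only [Finset.mul_sum]
    rw [Finset.sum_comm]
    exact Finset.sum_congr rfl fun S _ => Finset.sum_congr rfl fun A _ => by ring
  rw [h]
  apply Finset.sum_congr rfl
  intro S _
  rw [der_chi]
  split_ifs <;> ring

lemma sum_chi [Fintype V] [DecidableEq V] (S : Finset V) (hS : S.Nonempty) :
    ∑ x : V → Bool, chi S x = 0 := by
  obtain ⟨v, hv⟩ := hS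
  have hinv : Function.Involutive (flip ({v} : Finset V)) := by
    intro x
    funext u
    unfold flip
    by_cases h : u ∈ ({v} : Finset V) <;> simp [h]
  have h : ∑ x : V → Bool, chi S x = ∑ x : V → Bool, chi S (flip {v} x) :=
    (Equiv.sum_comp (Equiv.ofBijective _ hinv.bijective) (fun x => chi S x)).symm
  have h2 : ∀ x : V → Bool, chi S (flip {v} x) = - chi S x := by
    intro x
    rw [chi_flip, Finset.inter_singleton_of_mem hv]
    simp
  rw [Finset.sum_congr rfl (fun x _ => h2 x), Finset.sum_neg_distrib] at h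
  linarith

lemma chi_empty (x : V → Bool) : chi (∅ : Finset V) x = 1 := by simp [chi]

/-- Parseval -/
lemma sum_sq [Fintype V] [DecidableEq V] (c : Finset V → ℝ) :
    ∑ x : V → Bool, (∑ S, c S * chi S x) ^ 2 = 2 ^ Fintype.card V * ∑ S, c S ^ 2 := by
  have h1 : ∀ x : V → Bool, (∑ S, c S * chi S x) ^ 2 =
      ∑ S, ∑ T, c S * c T * chi (symmDiff S T) x := by
    intro x
    rw [sq, Finset.sum_mul_sum]
    apply Finset.sum_congr rfl
    intro S _
    apply Finset.sum_congr rfl
    intro T _
    rw [← chi_mul, Pi.mul_apply]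
    ring
  simp only [h1]
  rw [Finset.sum_comm, Finset.mul_sum]
  apply Finset.sum_congr rfl
  intro S _
  rw [Finset.sum_comm]
  rw [Finset.sum_eq_single S]
  · simp only [symmDiff_self, Finset.bot_eq_empty, chi_empty, mul_one, Finset.sum_const,
      nsmul_eq_mul, Finset.card_univ, Fintype.card_fun, Fintype.card_bool]
    push_cast
    ring
  · intro T _ hT
    rw [← Finset.mul_sum, sum_chi, mul_zero]
    rw [Finset.nonempty_iff_ne_empty]
    intro h
    exact hT (symmDiff_eq_bot.1 h).symm
  · intro h
    exact absurd (Finset.mem_univ _) h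

/-- the average of the number of functions with values in a subset -/
lemma card_maps {n m : ℕ} (S : Finset (Fin n)) :
    ((Finset.univ : Finset (Fin m → Fin n)).filter fun u => Finset.univ.image u ⊆ S).card =
      S.card ^ m := by
  classical
  have h : ((Finset.univ : Finset (Fin m → Fin n)).filter fun u => Finset.univ.image u ⊆ S) =
      Fintype.piFinset (fun _ : Fin m => S) := by
    ext u
    simp only [Finset.mem_filter, Finset.mem_univ, true_and, Fintype.mem_piFinset,
      Finset.image_subset_iff, forall_const]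
  rw [h, Fintype.card_piFinset]
  simp

/-- The main estimate for one function. -/
lemma one_function {n m D : ℕ} (f : (Fin n → Bool) → ℝ) (P : (Fin n → Bool) → ℝ)
    (hP : P ∈ LowDeg (Fin n) D) (ε : ℝ) (hε0 : 0 ≤ ε) (hε1 : ε ≤ 1) (hf : ∀ z, |f z| ≤ 1)
    (hPf : ∀ z, |P z - f z| ≤ ε) :
    ∑ u : Fin m → Fin n, ∑ x : Fin n → Bool, der (Finset.univ.image u) f x ^ 2 ≤
      2 ^ n * (8 * 4 ^ m * (D : ℝ) ^ m + 2 * 4 ^ m * (n : ℝ) ^ m * ε ^ 2) := by
  classical
  obtain ⟨c, hc, hcP⟩ := LowDeg.expand hP
  have hcard : ∀ u : Fin m → Fin n, (Finset.univ.image u).card ≤ m := by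
    intro u
    simpa using (Finset.card_image_le (s := Finset.univ) (f := u))
  have h1 : ∀ (u : Fin m → Fin n) (x : Fin n → Bool), der (Finset.univ.image u) f x ^ 2 ≤
      2 * der (Finset.univ.image u) P x ^ 2 + 2 * (4 ^ m * ε ^ 2) := by
    intro u x
    have e1 : der (Finset.univ.image u) f x = der (Finset.univ.image u) P x +
        der (Finset.univ.image u) (fun z => f z - P z) x := by
      rw [← der_add]
      congr 1
      funext z
      ring
    have e2 : |der (Finset.univ.image u) (fun z => f z - P z) x| ≤ 2 ^ m * ε := by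
      unfold der
      refine (Finset.abs_sum_le_sum_abs _ _).trans ?_
      calc ∑ A ∈ (Finset.univ.image u).powerset, |(-1 : ℝ) ^ A.card * (f (flip A x) - P (flip A x))|
          ≤ ∑ A ∈ (Finset.univ.image u).powerset, ε := by
            apply Finset.sum_le_sum
            intro A _
            rw [abs_mul, abs_pow, abs_neg, abs_one, one_pow, one_mul, abs_sub_comm]
            exact hPf _
        _ = 2 ^ (Finset.univ.image u).card * ε := by
            rw [Finset.sum_const, Finset.card_powerset, nsmul_eq_mul]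
            push_cast
            ring
        _ ≤ 2 ^ m * ε := by
            apply mul_le_mul_of_nonneg_right _ hε0
            exact pow_le_pow_right₀ (by norm_num) (hcard u)
    have e3 : der (Finset.univ.image u) (fun z => f z - P z) x ^ 2 ≤ 4 ^ m * ε ^ 2 := by
      have := sq_le_sq' (abs_le.1 e2).1 (abs_le.1 e2).2
      calc _ ≤ (2 ^ m * ε) ^ 2 := this
        _ = 4 ^ m * ε ^ 2 := by
          rw [mul_pow, ← pow_mul, mul_comm m 2, pow_mul]
          norm_num
    rw [e1]
    nlinarith [sq_nonneg (der (Finset.univ.image u) P x -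
      der (Finset.univ.image u) (fun z => f z - P z) x)]
  have h2 : ∀ u : Fin m → Fin n, ∑ x : Fin n → Bool, der (Finset.univ.image u) P x ^ 2 ≤
      2 ^ n * (4 ^ m * ∑ S : Finset (Fin n), if Finset.univ.image u ⊆ S then c S ^ 2 else 0) := by
    intro u
    have e : ∀ x, der (Finset.univ.image u) P x =
        ∑ S, (if Finset.univ.image u ⊆ S then c S * 2 ^ (Finset.univ.image u).card else 0) *
          chi S x := by
      intro x
      rw [← der_sum]
      congr 1
      funext z
      exact hcP z
    simp only [e]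
    rw [sum_sq, Fintype.card_fin]
    apply mul_le_mul_of_nonneg_left _ (by positivity)
    rw [Finset.mul_sum]
    apply Finset.sum_le_sum
    intro S _
    split_ifs
    · rw [mul_pow, mul_comm]
      apply mul_le_mul_of_nonneg_right _ (sq_nonneg _)
      calc ((2 : ℝ) ^ (Finset.univ.image u).card) ^ 2 = 4 ^ (Finset.univ.image u).card := by
            rw [← pow_mul, mul_comm, pow_mul]
            norm_num
        _ ≤ 4 ^ m := pow_le_pow_right₀ (by norm_num) (hcard u)
    · simp
  have h3 : ∑ S : Finset (Fin n), c S ^ 2 ≤ 4 := by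
    have e := sum_sq c
    rw [Fintype.card_fin] at e
    have hb : ∑ x : Fin n → Bool, (∑ S, c S * chi S x) ^ 2 ≤ 2 ^ n * 4 := by
      calc ∑ x : Fin n → Bool, (∑ S, c S * chi S x) ^ 2 ≤ ∑ _x : Fin n → Bool, (4 : ℝ) := by
            apply Finset.sum_le_sum
            intro x _
            rw [← hcP x]
            have h4 : |P x| ≤ 2 := by
              calc |P x| = |(P x - f x) + f x| := by ring_nf
                _ ≤ |P x - f x| + |f x| := abs_add_le _ _
                _ ≤ 1 + 1 := add_le_add ((hPf x).trans hε1) (hf x)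
                _ = 2 := by norm_num
            have := sq_le_sq' (abs_le.1 h4).1 (abs_le.1 h4).2
            linarith
        _ = 2 ^ n * 4 := by
            rw [Finset.sum_const, nsmul_eq_mul]
            simp
    rw [e] at hb
    exact le_of_mul_le_mul_left hb (by positivity)
  have h4 : ∑ u : Fin m → Fin n, ∑ S : Finset (Fin n),
      (if Finset.univ.image u ⊆ S then c S ^ 2 else 0) ≤ 4 * (D : ℝ) ^ m := by
    rw [Finset.sum_comm]
    calc ∑ S : Finset (Fin n), ∑ u : Fin m → Fin n,
          (if Finset.univ.image u ⊆ S then c S ^ 2 else 0)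
        = ∑ S : Finset (Fin n), (S.card : ℝ) ^ m * c S ^ 2 := by
          apply Finset.sum_congr rfl
          intro S _
          rw [← Finset.sum_filter, Finset.sum_const, card_maps, nsmul_eq_mul]
          push_cast
          ring
      _ ≤ ∑ S : Finset (Fin n), (D : ℝ) ^ m * c S ^ 2 := by
          apply Finset.sum_le_sum
          intro S _
          by_cases hS : D < S.card
          · rw [hc S hS]
            simp
          · apply mul_le_mul_of_nonneg_right _ (sq_nonneg _)
            apply pow_le_pow_left₀ (by positivity)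
            exact_mod_cast not_lt.1 hS
      _ = (D : ℝ) ^ m * ∑ S : Finset (Fin n), c S ^ 2 := by rw [Finset.mul_sum]
      _ ≤ (D : ℝ) ^ m * 4 := mul_le_mul_of_nonneg_left h3 (by positivity)
      _ = 4 * (D : ℝ) ^ m := by ring
  calc ∑ u : Fin m → Fin n, ∑ x : Fin n → Bool, der (Finset.univ.image u) f x ^ 2
      ≤ ∑ u : Fin m → Fin n, ∑ x : Fin n → Bool,
          (2 * der (Finset.univ.image u) P x ^ 2 + 2 * (4 ^ m * ε ^ 2)) :=
        Finset.sum_le_sum fun u _ => Finset.sum_le_sum fun x _ => h1 u x
    _ = ∑ u : Fin m → Fin n, (2 * ∑ x : Fin n → Bool, der (Finset.univ.image u) P x ^ 2 +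
          2 ^ n * (2 * (4 ^ m * ε ^ 2))) := by
        apply Finset.sum_congr rfl
        intro u _
        rw [Finset.sum_add_distrib, Finset.mul_sum, Finset.sum_const, nsmul_eq_mul]
        congr 2
        simp
    _ ≤ ∑ u : Fin m → Fin n, (2 * (2 ^ n * (4 ^ m * ∑ S : Finset (Fin n),
          if Finset.univ.image u ⊆ S then c S ^ 2 else 0)) + 2 ^ n * (2 * (4 ^ m * ε ^ 2))) := by
        apply Finset.sum_le_sum
        intro u _
        have := h2 u
        linarith
    _ = 2 ^ n * (2 * 4 ^ m * ∑ u : Fin m → Fin n, ∑ S : Finset (Fin n),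
          (if Finset.univ.image u ⊆ S then c S ^ 2 else 0)) +
          (n : ℝ) ^ m * (2 ^ n * (2 * (4 ^ m * ε ^ 2))) := by
        rw [Finset.sum_add_distrib, Finset.sum_const, nsmul_eq_mul, Finset.mul_sum, Finset.mul_sum]
        congr 1
        · apply Finset.sum_congr rfl
          intro u _
          ring
        · congr 1
          simp
    _ ≤ 2 ^ n * (2 * 4 ^ m * (4 * (D : ℝ) ^ m)) +
          (n : ℝ) ^ m * (2 ^ n * (2 * (4 ^ m * ε ^ 2))) := by
        gcongr
    _ = _ := by ring

/-- **Decision lists for the parity function.** -/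
theorem list_bound {n m D : ℕ} (hn : 1 ≤ n) (hD : 16 * D ≤ n) (I : Finset ℕ)
    (f : ℕ → (Fin n → Bool) → Bool) (b : ℕ → ℝ)
    (hfirst : ∀ x, ∃ i ∈ I, f i x = true ∧ b i = chi Finset.univ x ∧
      ∀ i' ∈ I, i' < i → f i' x = false)
    (happ : ∀ i ∈ I, ∃ P ∈ LowDeg (Fin n) D, ∀ z,
      |P z - (if f i z = true then 1 else 0)| ≤ (1 / 4) ^ m) :
    4 ^ m ≤ 10 * I.card := by
  classical
  choose idx hidx1 hidx2 hidx3 hidx4 using hfirst
  have hchi : ∀ x : Fin n → Bool, chi Finset.univ x * chi Finset.univ x = 1 := by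
    intro x
    have := congrFun (chi_mul (Finset.univ : Finset (Fin n)) Finset.univ) x
    rw [Pi.mul_apply] at this
    rw [this, symmDiff_self]
    exact chi_empty x
  have key : ∀ (u : Fin m → Fin n) (x : Fin n → Bool),
      1 ≤ ∑ i ∈ I,
        der (Finset.univ.image u) (fun z => if f i z = true then (1 : ℝ) else 0) x ^ 2 := by
    intro u x
    obtain ⟨A0, hA0, hmin⟩ := Finset.exists_min_image (Finset.univ.image u).powerset
      (fun A => idx (flip A x)) ⟨∅, Finset.empty_mem_powerset _⟩
    set i := idx (flip A0 x) with hi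
    have hterm : ∀ A ∈ (Finset.univ.image u).powerset,
        (-1 : ℝ) ^ A.card * (if f i (flip A x) = true then (1 : ℝ) else 0) =
          (b i * chi Finset.univ x) * (if f i (flip A x) = true then (1 : ℝ) else 0) := by
      intro A hA
      by_cases hf : f i (flip A x) = true
      · have h1 : idx (flip A x) ≤ i := by
          by_contra hcon
          rw [hidx4 (flip A x) i (hidx1 _) (not_le.1 hcon)] at hf
          exact absurd hf (by simp)
        have h2 : idx (flip A x) = i := le_antisymm h1 (hmin A hA)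
        have h3 : b i = chi Finset.univ (flip A x) := by rw [← h2]; exact hidx3 _
        rw [h3, chi_flip, Finset.univ_inter]
        have h4 := hchi x
        calc (-1 : ℝ) ^ A.card * (if f i (flip A x) = true then (1 : ℝ) else 0)
            = (-1 : ℝ) ^ A.card * (chi Finset.univ x * chi Finset.univ x) *
              (if f i (flip A x) = true then (1 : ℝ) else 0) := by rw [h4, mul_one]
          _ = _ := by ring
      · simp [hf]
    have hder : der (Finset.univ.image u) (fun z => if f i z = true then (1 : ℝ) else 0) x =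
        (b i * chi Finset.univ x) *
          ∑ A ∈ (Finset.univ.image u).powerset, (if f i (flip A x) = true then (1 : ℝ) else 0) := by
      unfold der
      rw [Finset.mul_sum]
      exact Finset.sum_congr rfl hterm
    have hsq : (b i * chi Finset.univ x) ^ 2 = 1 := by
      have h3 : b i = chi Finset.univ (flip A0 x) := hidx3 _
      rw [mul_pow, h3, sq, sq, hchi, hchi, mul_one]
    have hge : 1 ≤ ∑ A ∈ (Finset.univ.image u).powerset,
        (if f i (flip A x) = true then (1 : ℝ) else 0) := by
      calc (1 : ℝ) = (if f i (flip A0 x) = true then (1 : ℝ) else 0) := by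
            rw [if_pos (hidx2 _)]
        _ ≤ _ := Finset.single_le_sum
            (f := fun A => if f i (flip A x) = true then (1 : ℝ) else 0)
            (fun A _ => by split_ifs <;> norm_num) hA0
    calc (1 : ℝ) ≤ der (Finset.univ.image u) (fun z => if f i z = true then (1 : ℝ) else 0) x ^ 2 := by
          rw [hder, mul_pow, hsq, one_mul]
          nlinarith
      _ ≤ _ := Finset.single_le_sum (f := fun i =>
            der (Finset.univ.image u) (fun z => if f i z = true then (1 : ℝ) else 0) x ^ 2)
            (fun i _ => sq_nonneg _) (hidx1 _)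
  have hsum : (n : ℝ) ^ m * 2 ^ n ≤ ∑ u : Fin m → Fin n, ∑ x : Fin n → Bool,
      ∑ i ∈ I,
        der (Finset.univ.image u) (fun z => if f i z = true then (1 : ℝ) else 0) x ^ 2 := by
    calc (n : ℝ) ^ m * 2 ^ n = ∑ _u : Fin m → Fin n, ∑ _x : Fin n → Bool, (1 : ℝ) := by
          simp
      _ ≤ _ := Finset.sum_le_sum fun u _ => Finset.sum_le_sum fun x _ => key u x
  have hswap : ∑ u : Fin m → Fin n, ∑ x : Fin n → Bool,
      ∑ i ∈ I,
        der (Finset.univ.image u) (fun z => if f i z = true then (1 : ℝ) else 0) x ^ 2 =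
      ∑ i ∈ I, ∑ u : Fin m → Fin n, ∑ x : Fin n → Bool,
        der (Finset.univ.image u) (fun z => if f i z = true then (1 : ℝ) else 0) x ^ 2 := by
    rw [Finset.sum_comm]
    have : ∀ u : Fin m → Fin n, ∑ x : Fin n → Bool, ∑ i ∈ I,
        der (Finset.univ.image u) (fun z => if f i z = true then (1 : ℝ) else 0) x ^ 2 =
        ∑ i ∈ I, ∑ x : Fin n → Bool,
        der (Finset.univ.image u) (fun z => if f i z = true then (1 : ℝ) else 0) x ^ 2 :=
      fun u => Finset.sum_comm
    rw [Finset.sum_comm]
    simp only [this]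
    rw [Finset.sum_comm]
  rw [hswap] at hsum
  have hb : ∀ i ∈ I, ∑ u : Fin m → Fin n, ∑ x : Fin n → Bool,
        der (Finset.univ.image u) (fun z => if f i z = true then (1 : ℝ) else 0) x ^ 2 ≤
        2 ^ n * (10 * (n : ℝ) ^ m / 4 ^ m) := by
    intro i hi
    obtain ⟨P, hP, hPf⟩ := happ i hi
    have := one_function (m := m) (fun z => if f i z = true then (1 : ℝ) else 0) P hP ((1 / 4) ^ m)
      (by positivity) (pow_le_one₀ (by norm_num) (by norm_num))
      (fun z => by
        show |if f i z = true then (1 : ℝ) else 0| ≤ 1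
        split_ifs <;> norm_num) hPf
    refine this.trans ?_
    apply mul_le_mul_of_nonneg_left _ (by positivity)
    have h1 : (D : ℝ) ^ m ≤ (n : ℝ) ^ m / 16 ^ m := by
      rw [← div_pow]
      apply pow_le_pow_left₀ (by positivity)
      rw [le_div_iff₀ (by norm_num)]
      have : ((16 * D : ℕ) : ℝ) ≤ n := by exact_mod_cast hD
      push_cast at this
      linarith
    have h16 : (16 : ℝ) ^ m = 4 ^ m * 4 ^ m := by
      rw [← mul_pow]
      norm_num
    have h4 : (0 : ℝ) < 4 ^ m := by positivity
    have h2 : ((1 / 4 : ℝ) ^ m) ^ 2 = 1 / (4 ^ m * 4 ^ m) := by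
      rw [one_div, inv_pow, sq, ← mul_inv, one_div]
    rw [h2]
    calc 8 * 4 ^ m * (D : ℝ) ^ m + 2 * 4 ^ m * (n : ℝ) ^ m * (1 / (4 ^ m * 4 ^ m))
        ≤ 8 * 4 ^ m * ((n : ℝ) ^ m / 16 ^ m) +
            2 * 4 ^ m * (n : ℝ) ^ m * (1 / (4 ^ m * 4 ^ m)) := by
          gcongr
      _ = 10 * (n : ℝ) ^ m / 4 ^ m := by
          rw [h16]
          field_simp
          ring
  have h1 := hsum.trans (Finset.sum_le_sum hb)
  rw [Finset.sum_const, nsmul_eq_mul] at h1
  have hnm : (0 : ℝ) < (n : ℝ) ^ m := by
    have : (0 : ℝ) < n := by exact_mod_cast hn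
    positivity
  have h4 : (0 : ℝ) < 4 ^ m := by positivity
  have h2 : (4 : ℝ) ^ m ≤ 10 * I.card := by
    have e : (I.card : ℝ) * (2 ^ n * (10 * (n : ℝ) ^ m / 4 ^ m)) =
        ((n : ℝ) ^ m * 2 ^ n) * (10 * I.card / 4 ^ m) := by ring
    rw [e] at h1
    have h5 : (1 : ℝ) ≤ 10 * I.card / 4 ^ m := by
      by_contra hcon
      push Not at hcon
      have : ((n : ℝ) ^ m * 2 ^ n) * (10 * I.card / 4 ^ m) < ((n : ℝ) ^ m * 2 ^ n) * 1 :=
        mul_lt_mul_of_pos_left hcon (by positivity)
      linarith
    rw [le_div_iff₀ h4] at h5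
    linarith
  exact_mod_cast h2

end Pool.Agent.H564R2.QF
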