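import Pool.Agent.H564R2.QF.Defs

/-!
Stubs (statements only, with `sorry`): every theorem goes to its own file, see `h564_tasks`.
-/

namespace Pool.Agent.H564R2.QF.Blueprint

open Pool.Agent.H564R2.QF

variable {V : Type}

/-- T1, file Net.lean. Series-parallel networks. -/
theorem exists_net (φ : Fml V) : ∀ (b : Bool) (a : ℝ), 0 ≤ a → (φ.size ≠ 0 → 0 < a) →
    ∃ (ι : Type) (_ : Fintype ι) (lit : ι → V × Bool) (W : Submodule ℝ (Option ι → ℝ)),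
      (∀ z : V → Bool, φ.eval z = b → ∃ y : ι → ℝ, (∀ e, z (lit e).1 ≠ (lit e).2 → y e = 0) ∧
        ∑ e, y e ^ 2 ≤ a ∧ ∀ w ∈ W, w none = ∑ e, y e * w (some e)) ∧
      (∀ z : V → Bool, φ.eval z ≠ b → ∃ w ∈ W, w none = 1 ∧
        (∀ e, z (lit e).1 = (lit e).2 → w (some e) = 0) ∧
        ∑ e, w (some e) ^ 2 ≤ (φ.size : ℝ) / a) := by
  sorry

/-- T2, file Cheb.lean. Chebyshev approximation of `1 / z` on `[μ, 1]`. -/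
theorem exists_poly (μ : ℝ) (hμ0 : 0 < μ) (hμ1 : μ < 1) (d : ℕ) :
    ∃ q : Polynomial ℝ, q.natDegree ≤ d ∧
      ∀ z : ℝ, μ ≤ z → z ≤ 1 → |q.eval z * z - 1| ≤ 1 / (1 + 2 * μ * d ^ 2) := by
  sorry

/-- T3, file Spec.lean. Polynomials in a symmetric matrix. -/
theorem form_bound {r : ℕ} (N : Matrix (Fin r) (Fin r) ℝ) (hN : N.IsSymm) (μ δ : ℝ) (hμ : 0 < μ)
    (hlo : ∀ c : Fin r → ℝ, μ * (c ⬝ᵥ c) ≤ c ⬝ᵥ (N.mulVec c))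
    (hhi : ∀ c : Fin r → ℝ, c ⬝ᵥ (N.mulVec c) ≤ c ⬝ᵥ c)
    (q : Polynomial ℝ) (hq : ∀ z : ℝ, μ ≤ z → z ≤ 1 → |q.eval z * z - 1| ≤ δ)
    (τ : Fin r → ℝ) :
    ∃ w : Fin r → ℝ, N.mulVec w = τ ∧ 0 ≤ τ ⬝ᵥ w ∧
      |τ ⬝ᵥ ((Polynomial.aeval N q).mulVec τ) - τ ⬝ᵥ w| ≤ δ * (τ ⬝ᵥ w) := by
  sorry

/-- T4, file Const.lean (uses T1, T2, T3). Formulas of size `T ^ 2` have approximate degree
`O(T)`. -/
theorem approx_const (φ : Fml V) (T : ℕ) (hT : 1 ≤ T) (hs : φ.size ≤ T ^ 2) :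
    ∃ p ∈ LowDeg V (180 * T), ∀ z, 0 ≤ p z ∧ p z ≤ 1 ∧
      (φ.eval z = true → 15 / 16 ≤ p z) ∧ (φ.eval z = false → p z ≤ 1 / 16) := by
  sorry

/-- T5, file Decomp.lean. Decomposition of a formula into small formulas. -/
theorem decomp (φ : Fml V) (t : ℕ) (ht : 1 ≤ t) : ∃ L : List (Fml V), (∀ ψ ∈ L, ψ.size ≤ t) ∧
    L.length * t ≤ 8 * φ.size + t ∧
    ∀ z z' : V → Bool, (∀ ψ ∈ L, ψ.eval z = ψ.eval z') → φ.eval z = φ.eval z' := by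
  sorry

/-- T6, file Amp.lean. Amplification. -/
theorem exists_amp (m : ℕ) : ∃ B : Polynomial ℝ, B.natDegree ≤ m ∧ ∀ p : ℝ, 0 ≤ p → p ≤ 1 →
    0 ≤ B.eval p ∧ B.eval p ≤ 1 ∧
    (p ≤ 1 / 16 → B.eval p ≤ (1 / 2) ^ m) ∧ (15 / 16 ≤ p → 1 - B.eval p ≤ (1 / 2) ^ m) := by
  sorry

/-- T7, file Robust.lean (uses T6). Composition with robust polynomials. -/
theorem robust (N d D : ℕ) (g : Fin N → (V → Bool) → Bool) (p : Fin N → (V → Bool) → ℝ)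
    (hp : ∀ j, p j ∈ LowDeg V d) (h0 : ∀ j z, 0 ≤ p j z ∧ p j z ≤ 1)
    (h1 : ∀ j z, g j z = true → 15 / 16 ≤ p j z) (h2 : ∀ j z, g j z = false → p j z ≤ 1 / 16)
    (G : (V → Bool) → Bool) (hG : ∀ z z', (∀ j, g j z = g j z') → G z = G z') :
    ∃ P ∈ LowDeg V ((N + D) * d), ∀ z,
      |P z - (if G z = true then 1 else 0)| ≤ 2 * 12 ^ N * (2 / 3) ^ D := by
  sorry

/-- T8, file Approx.lean (uses T4, T5, T7). -/
theorem formula_approx (φ : Fml V) (k T : ℕ) (hk : 1 ≤ k) (hT : 1 ≤ T) (hs : φ.size ≤ k * T ^ 2) :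
    ∃ P ∈ LowDeg V (12780 * k * T), ∀ z,
      |P z - (if φ.eval z = true then 1 else 0)| ≤ (1 / 4) ^ k := by
  sorry

end Pool.Agent.H564R2.QF.Blueprint
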