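import Pool.Agent.H564R2.QF.GameDefs

/-!
Strategy extraction for refutations modulo games with few looks.
-/

namespace Pool.Agent.H564R2.QF

variable {V : Type}

/-- The play in which the universal player uses `σ` from rank `p` on. -/
noncomputable def play (Φ : QBF V) (σ : V → (V → Bool) → Bool) (p : ℕ) (v : V → Bool) (u : V) :
    Bool :=
  open Classical in
  if u ∈ Φ.univ ∧ p ≤ Φ.rank u then
    σ u (fun z => if h : Φ.rank z < Φ.rank u then play Φ σ p v z else false)
  else v u
termination_by Φ.rank u
decreasing_by exact h

lemma play_old (Φ : QBF V) (σ : V → (V → Bool) → Bool) (p : ℕ) (v : V → Bool) (u : V)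
    (h : ¬ (u ∈ Φ.univ ∧ p ≤ Φ.rank u)) : play Φ σ p v u = v u := by
  rw [play, if_neg h]

lemma play_new (Φ : QBF V) (σ : V → (V → Bool) → Bool) (p : ℕ) (v : V → Bool) (u : V) (c : ℕ)
    (hu : u ∈ Φ.univ) (hp : p ≤ Φ.rank u) (hc : c ≤ Φ.rank u)
    (hσ : ∀ β γ, Φ.Agree c β γ → σ u β = σ u γ) :
    play Φ σ p v u = σ u (play Φ σ p v) := by
  rw [play, if_pos ⟨hu, hp⟩]
  apply hσ
  intro z hz
  have hz' : Φ.rank z < Φ.rank u := lt_of_lt_of_le hz hc
  simp only [dif_pos hz']

lemma play_agree (Φ : QBF V) (σ : V → (V → Bool) → Bool) (p q : ℕ) (v v' : V → Bool)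
    (h : Φ.Agree q v v') : Φ.Agree q (play Φ σ p v) (play Φ σ p v') := by
  have key : ∀ m, ∀ u, Φ.rank u = m → Φ.rank u < q → play Φ σ p v u = play Φ σ p v' u := by
    intro m
    induction m using Nat.strong_induction_on with
    | _ m ih =>
      intro u hu hq
      by_cases hc : u ∈ Φ.univ ∧ p ≤ Φ.rank u
      · rw [play, play, if_pos hc, if_pos hc]
        congr 1
        funext z
        by_cases hz : Φ.rank z < Φ.rank u
        · rw [dif_pos hz, dif_pos hz]
          exact ih (Φ.rank z) (by omega) z rfl (by omega)
        · rw [dif_neg hz, dif_neg hz]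
      · rw [play_old _ _ _ _ _ hc, play_old _ _ _ _ _ hc]
        exact h u hq
  intro u hu
  exact key _ u rfl hu

lemma aux_e (f e w t : Bool) (c1 : f = false ∨ e = true ∨ w = true ∨ t = true)
    (c2 : f = false ∨ e = true ∨ w = false ∨ t = false) (h : e = false) (h2 : w = t) :
    f = false := by
  cases f <;> cases e <;> cases w <;> cases t <;> simp_all

/-- parity -/
def par {n : ℕ} (a : Fin n → Bool) : Bool :=
  decide (Odd (Finset.univ.filter fun s => a s = true).card)

/-- partial parities -/
def tv {n : ℕ} (a : Fin n → Bool) (s : ℕ) : Bool :=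
  decide (Odd (Finset.univ.filter fun q : Fin n => q.val < s ∧ a q = true).card)

lemma par_surj {n : ℕ} (hn : 1 ≤ n) (c : Bool) : ∃ a : Fin n → Bool, par a = c := by
  cases c with
  | false => exact ⟨fun _ => false, by simp [par]⟩
  | true =>
    refine ⟨fun s => decide (s = ⟨0, hn⟩), ?_⟩
    have : (Finset.univ.filter fun s : Fin n => decide (s = ⟨0, hn⟩) = true) = {⟨0, hn⟩} := by
      ext s; simp
    have h2 : par (fun s => decide (s = ⟨0, hn⟩))
        = decide (Odd (Finset.univ.filter fun s : Fin n =>
        decide (s = ⟨0, hn⟩) = true).card) := rfl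
    rw [h2, this]
    simp

lemma tv_zero {n : ℕ} (a : Fin n → Bool) : tv a 0 = false := by
  simp [tv]

lemma tv_last {n : ℕ} (a : Fin n → Bool) : tv a n = par a := by
  simp [tv, par]

lemma tv_succ {n : ℕ} (a : Fin n → Bool) (s : Fin n) :
    tv a (s.val + 1) = xor (tv a s.val) (a s) := by
  by_cases h : a s = true
  · have e : (Finset.univ.filter fun q : Fin n => q.val < s.val + 1 ∧ a q = true)
        = insert s (Finset.univ.filter fun q : Fin n => q.val < s.val ∧ a q = true) := by
      ext q
      simp only [Finset.mem_filter, Finset.mem_univ, true_and, Finset.mem_insert]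
      constructor
      · rintro ⟨h1, h2⟩
        rcases Nat.lt_succ_iff_lt_or_eq.1 h1 with h1 | h1
        · exact Or.inr ⟨h1, h2⟩
        · exact Or.inl (Fin.ext h1)
      · rintro (rfl | ⟨h1, h2⟩)
        · exact ⟨by omega, h⟩
        · exact ⟨by omega, h2⟩
    unfold tv
    rw [e, Finset.card_insert_of_notMem (by simp), h]
    rw [Bool.xor_true]
    generalize (Finset.univ.filter fun q : Fin n => q.val < s.val ∧ a q = true).card = c
    by_cases hc : Odd c
    · have : ¬ Odd (c + 1) := by rw [Nat.odd_add_one]; simpa using hc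
      simp [hc, this]
    · have : Odd (c + 1) := by rw [Nat.odd_add_one]; exact hc
      simp only [hc, this, decide_true, decide_false, Bool.not_false]
  · have e : (Finset.univ.filter fun q : Fin n => q.val < s.val + 1 ∧ a q = true)
        = (Finset.univ.filter fun q : Fin n => q.val < s.val ∧ a q = true) := by
      ext q
      simp only [Finset.mem_filter, Finset.mem_univ, true_and]
      constructor
      · rintro ⟨h1, h2⟩
        rcases Nat.lt_succ_iff_lt_or_eq.1 h1 with h1 | h1
        · exact ⟨h1, h2⟩
        · have : q = s := Fin.ext h1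
          subst this
          exact absurd h2 h
      · rintro ⟨h1, h2⟩
        exact ⟨by omega, h2⟩
    unfold tv
    rw [e]
    have : a s = false := by simpa using h
    rw [this, Bool.xor_false]

section Game

variable {r n : ℕ}

instance finVar : Finite (Var r n) := by
  have : Function.Injective (fun v : Var r n => match v with
      | .x l s => (Sum.inl (l, s) : (Fin r × Fin n) ⊕ (Fin r) ⊕
          (Fin r × Fin (n + 1)) ⊕ Fin (r + 1))
      | .w l => Sum.inr (Sum.inl l)
      | .t l s => Sum.inr (Sum.inr (Sum.inl (l, s)))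
      | .e l => Sum.inr (Sum.inr (Sum.inr l))) := by
    intro a b h
    cases a <;> cases b <;> simp_all
  exact Finite.of_injective _ this

/-- moves of the existential player -/
def xs (β : Var r n → Bool) (l : Fin r) : Fin n → Bool := fun s => β (.x l s)

/-- `h` with the move of the existential player in round `i` replaced by `a`. -/
def put (i : Fin r) (a : Fin n → Bool) (h : Var r n → Bool) : Var r n → Bool
  | .x l s => if l = i then a s else h (.x l s)
  | v => h v

/-- Change the last block so that it is correct. -/
def fixup (β : Var r n → Bool) : Var r n → Bool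
  | .t l s => tv (xs β l) s.val
  | .e s => decide (∃ l : Fin r, l.val < s.val ∧ β (.w l) ≠ par (xs β l))
  | .x l s => β (.x l s)
  | .w l => β (.w l)

lemma fixup_agree (β : Var r n → Bool) : (game r n).Agree (2 * r) β (fixup β) := by
  intro v hv
  cases v with
  | x l s => rfl
  | w l => rfl
  | t l s => exact absurd hv (lt_irrefl _)
  | e s => exact absurd hv (lt_irrefl _)

lemma fixup_matrix (β : Var r n → Bool) (l0 : Fin r) (h : β (.w l0) ≠ par (xs β l0)) :
    (game r n).Matrix (fixup β) := by
  intro C hC
  have tstep : ∀ (l : Fin r) (s : Fin n), fixup β (.t l s.succ)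
      = xor (fixup β (.t l s.castSucc)) (fixup β (.x l s)) := by
    intro l s
    have := tv_succ (xs β l) s
    simpa [fixup, xs] using this
  have tlast : ∀ l : Fin r, fixup β (.t l (Fin.last n)) = par (xs β l) := by
    intro l
    have := tv_last (xs β l)
    simpa [fixup] using this
  have estep : ∀ l : Fin r, fixup β (.e l.succ) = true → fixup β (.e l.castSucc) = true ∨
      fixup β (.w l) ≠ fixup β (.t l (Fin.last n)) := by
    intro l hl
    rw [tlast]
    simp only [fixup, decide_eq_true_eq] at hl ⊢
    obtain ⟨l', h1, h2⟩ := hl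
    rw [Fin.val_succ] at h1
    rcases Nat.lt_succ_iff_lt_or_eq.1 h1 with h1 | h1
    · exact Or.inl ⟨l', by simpa using h1, h2⟩
    · have : l' = l := Fin.ext h1
      subst this
      exact Or.inr h2
  cases hC with
  | t0 l => exact ⟨_, List.mem_singleton.2 rfl, by simp [fixup, tv_zero]⟩
  | t1 l s =>
    have := tstep l s
    cases h1 : fixup β (.x l s) <;> cases h3 : fixup β (.t l s.castSucc) <;>
      cases h4 : fixup β (.t l s.succ) <;> simp_all
  | t2 l s =>
    have := tstep l s
    cases h1 : fixup β (.x l s) <;> cases h3 : fixup β (.t l s.castSucc) <;>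
      cases h4 : fixup β (.t l s.succ) <;> simp_all
  | t3 l s =>
    have := tstep l s
    cases h1 : fixup β (.x l s) <;> cases h3 : fixup β (.t l s.castSucc) <;>
      cases h4 : fixup β (.t l s.succ) <;> simp_all
  | t4 l s =>
    have := tstep l s
    cases h1 : fixup β (.x l s) <;> cases h3 : fixup β (.t l s.castSucc) <;>
      cases h4 : fixup β (.t l s.succ) <;> simp_all
  | e0 => exact ⟨_, List.mem_singleton.2 rfl, by simp [fixup]⟩
  | ew1 l =>
    have := estep l
    cases h1 : fixup β (.e l.succ) <;> cases h2 : fixup β (.e l.castSucc) <;>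
      cases h3 : fixup β (.w l) <;>
      cases h4 : fixup β (.t l (Fin.last n)) <;> simp_all
  | ew2 l =>
    have := estep l
    cases h1 : fixup β (.e l.succ) <;> cases h2 : fixup β (.e l.castSucc) <;>
      cases h3 : fixup β (.w l) <;>
      cases h4 : fixup β (.t l (Fin.last n)) <;> simp_all
  | er =>
    refine ⟨_, List.mem_singleton.2 rfl, ?_⟩
    simp only [fixup, decide_eq_true_eq]
    exact ⟨l0, by simp, h⟩

/-- If the matrix is true, then some answer is wrong. -/
lemma matrix_wrong (β : Var r n → Bool) (h : (game r n).Matrix β) :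
    ∃ l, β (.w l) ≠ par (xs β l) := by
  by_contra hcon
  push Not at hcon
  have ht : ∀ (l : Fin r) (s : ℕ) (hs : s < n + 1), β (.t l ⟨s, hs⟩) = tv (xs β l) s := by
    intro l s
    induction s with
    | zero =>
      intro hs
      obtain ⟨z, hz, hz2⟩ := h _ (IsClause.t0 l)
      rw [List.mem_singleton] at hz
      subst hz
      rw [tv_zero]
      exact hz2
    | succ s ih =>
      intro hs
      have ih' := ih (by omega)
      have hstep := tv_succ (xs β l) ⟨s, by omega⟩
      have e1 : (⟨s + 1, hs⟩ : Fin (n + 1)) = (⟨s, by omega⟩ : Fin n).succ := rfl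
      have e2 : (⟨s, by omega⟩ : Fin (n + 1)) = (⟨s, by omega⟩ : Fin n).castSucc := rfl
      rw [e2] at ih'
      rw [e1]
      have hstep' : tv (xs β l) (s + 1) = xor (tv (xs β l) s) (β (.x l ⟨s, by omega⟩)) := hstep
      rw [hstep', ← ih']
      have c1 := h _ (IsClause.t1 l ⟨s, by omega⟩)
      have c2 := h _ (IsClause.t2 l ⟨s, by omega⟩)
      have c3 := h _ (IsClause.t3 l ⟨s, by omega⟩)
      have c4 := h _ (IsClause.t4 l ⟨s, by omega⟩)
      simp only [List.mem_cons, List.not_mem_nil, or_false, exists_eq_or_imp, exists_eq_left]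
        at c1 c2 c3 c4
      generalize β (Var.t l (Fin.succ ⟨s, by omega⟩)) = A at *
      generalize β (Var.t l (Fin.castSucc ⟨s, by omega⟩)) = B at *
      generalize β (Var.x l ⟨s, by omega⟩) = C at *
      clear ih ih' hstep hstep' hcon
      revert A B C
      decide
  have he : ∀ (s : ℕ) (hs : s < r + 1), β (.e ⟨s, hs⟩) = false := by
    intro s
    induction s with
    | zero =>
      intro hs
      obtain ⟨z, hz, hz2⟩ := h _ IsClause.e0
      rw [List.mem_singleton] at hz
      subst hz
      exact hz2
    | succ s ih =>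
      intro hs
      have ih' := ih (by omega)
      have e1 : (⟨s + 1, hs⟩ : Fin (r + 1)) = (⟨s, by omega⟩ : Fin r).succ := rfl
      have e2 : (⟨s, by omega⟩ : Fin (r + 1)) = (⟨s, by omega⟩ : Fin r).castSucc := rfl
      rw [e2] at ih'
      rw [e1]
      have hw := hcon ⟨s, by omega⟩
      rw [← tv_last, ← ht ⟨s, by omega⟩ n (by omega)] at hw
      have e3 : (⟨n, by omega⟩ : Fin (n + 1)) = Fin.last n := rfl
      rw [e3] at hw
      have c1 := h _ (IsClause.ew1 ⟨s, by omega⟩)
      have c2 := h _ (IsClause.ew2 ⟨s, by omega⟩)
      simp only [List.mem_cons, List.not_mem_nil, or_false, exists_eq_or_imp, exists_eq_left]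
        at c1 c2
      exact aux_e _ _ _ _ c1 c2 ih' hw
  obtain ⟨z, hz, hz2⟩ := h _ IsClause.er
  rw [List.mem_singleton] at hz
  subst hz
  have := he r (by omega)
  have e3 : (⟨r, by omega⟩ : Fin (r + 1)) = Fin.last r := rfl
  rw [e3] at this
  simp only [] at hz2
  rw [this] at hz2
  exact absurd hz2 (by simp)

lemma xs_congr {β γ : Var r n → Bool} {q : ℕ} (h : (game r n).Agree q β γ) (l : Fin r)
    (hl : 2 * l.val < q) : xs β l = xs γ l := by
  funext s; exact h (.x l s) hl

lemma put_agree (i : Fin r) (a : Fin n → Bool) (h : Var r n → Bool) (q : ℕ)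
    (hq : q ≤ 2 * i.val) : (game r n).Agree q h (put i a h) := by
  intro v hv
  cases v with
  | x l s =>
    have hl : l ≠ i := by
      rintro rfl
      have : 2 * l.val < q := hv
      omega
    simp [put, hl]
  | w l => rfl
  | t l s => rfl
  | e s => rfl

lemma xs_put (i : Fin r) (a : Fin n → Bool) (h : Var r n → Bool) : xs (put i a h) i = a := by
  funext s; simp [xs, put]

/-- With `k` looks the universal player cannot win when a wrong answer has been given (or will be
given) in round `i` and `k` more rounds follow. -/
lemma not_wins (hn : 1 ≤ n) (k p : ℕ) (v : Var r n → Bool) (i : Fin r) (hik : i.val + k < r)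
    (hM : (game r n).Matrix v) (hw : v (.w i) ≠ par (xs v i)) :
    ¬ (game r n).WinsWithLooks k p v := by
  rintro ⟨C, c, σ, hC, hσ, hwin⟩
  have hwu : ∀ l : Fin r, (Var.w l : Var r n) ∈ (game r n).univ := fun l => ⟨l, rfl⟩
  by_cases hp1 : p ≤ 2 * i.val + 1
  · -- pigeonhole
    have hcard : C.card < (Finset.univ.filter fun l : Fin r => i.val ≤ l.val).card := by
      have : (Finset.univ.filter fun l : Fin r => i.val ≤ l.val) = Finset.Ici i := by
        ext l
        rw [Finset.mem_Ici, Finset.mem_filter]
        exact ⟨fun h => h.2, fun h => ⟨Finset.mem_univ _, h⟩⟩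
      rw [this, Fin.card_Ici]
      omega
    obtain ⟨l1, hl1, l2, hl2, hne, heq⟩ := Finset.exists_ne_map_eq_of_card_lt_of_maps_to hcard
      (f := fun l => c (.w l)) (by
        intro l hl
        have hl2 : i.val ≤ l.val := (Finset.mem_filter.1 (Finset.mem_coe.1 hl)).2
        refine (hσ (.w l) (hwu l) ?_).1
        show p ≤ 2 * l.val + 1
        omega)
    rw [Finset.mem_filter] at hl1 hl2
    -- the later one does not see its own round
    obtain ⟨l, hil, hpl, hcl⟩ : ∃ l : Fin r, i.val ≤ l.val ∧ p ≤ 2 * l.val ∧
        c (.w l) ≤ 2 * l.val := by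
      have b1 : c (.w l1) ≤ 2 * l1.val + 1 := (hσ (.w l1) (hwu l1) (by
        show p ≤ 2 * l1.val + 1
        omega)).2.1
      have b2 : c (.w l2) ≤ 2 * l2.val + 1 := (hσ (.w l2) (hwu l2) (by
        show p ≤ 2 * l2.val + 1
        omega)).2.1
      have hne' : l1.val ≠ l2.val := fun h => hne (Fin.ext h)
      rcases Nat.lt_or_gt_of_ne hne' with h | h
      · exact ⟨l2, hl2.2, by omega, by omega⟩
      · exact ⟨l1, hl1.2, by omega, by omega⟩
    set β0 := play (game r n) σ p v with hβ0
    obtain ⟨a, hab⟩ := par_surj hn (!(β0 (.w l)))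
    set v' := put l a v with hv'
    set β1 := play (game r n) σ p v' with hβ1
    have hagv : (game r n).Agree (2 * l.val) v v' := put_agree l a v _ le_rfl
    have hag0 : (game r n).Agree (2 * l.val) β0 β1 := play_agree _ _ _ _ _ _ hagv
    have hnew : ∀ (u : Var r n → Bool) (l : Fin r), p ≤ 2 * l.val + 1 →
        play (game r n) σ p u (.w l) = σ (.w l) (play (game r n) σ p u) := by
      intro u l hl
      obtain ⟨_, h2, h3⟩ := hσ (.w l) (hwu l) hl
      exact play_new _ _ _ _ _ _ (hwu l) hl h2 h3
    have hβl : β1 (.w l) = β0 (.w l) := by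
      rw [hβ1, hnew v' l (by omega), hβ0, hnew v l (by omega)]
      exact ((hσ (.w l) (hwu l) (by show p ≤ 2 * l.val + 1; omega)).2.2 _ _
        (fun z hz => (hag0 z (by omega)).symm))
    have hx : ∀ (u : Var r n → Bool) (j : Fin r), xs (play (game r n) σ p u) j = xs u j := by
      intro u j
      funext s
      apply play_old
      rintro ⟨⟨l', hl'⟩, _⟩
      exact absurd hl' (by simp)
    refine hwin (fixup β1) ?_ ?_ (fixup_matrix β1 l ?_)
    · intro z hz
      rw [← fixup_agree β1 z (by have := l.isLt; omega), hβ1,
        play_old _ _ _ _ _ (by rintro ⟨_, h⟩; omega)]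
      exact hagv z (by omega)
    · rintro u ⟨j, rfl⟩ hu
      obtain ⟨_, h2, h3⟩ := hσ (.w j) (hwu j) hu
      have : fixup β1 (.w j) = β1 (.w j) := rfl
      rw [this, hβ1, hnew v' j hu, ← hβ1]
      apply h3
      intro z hz
      apply fixup_agree
      have h2' : c (.w j) ≤ 2 * j.val + 1 := h2
      have := j.isLt
      omega
    · rw [hβl, hβ1, hx, hv', xs_put, hab]
      cases β0 (.w l) <;> simp
  · by_cases hp2 : p ≤ 2 * r
    · set β1 := play (game r n) σ p v with hβ1
      have hx : xs β1 i = xs v i := by
        funext s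
        apply play_old
        rintro ⟨⟨l', hl'⟩, _⟩
        exact absurd hl' (by simp)
      have hwi : β1 (.w i) = v (.w i) := by
        apply play_old
        rintro ⟨_, h⟩
        have : p ≤ 2 * i.val + 1 := h
        omega
      refine hwin (fixup β1) ?_ ?_ (fixup_matrix β1 i ?_)
      · intro z hz
        rw [← fixup_agree β1 z (by omega), hβ1,
          play_old _ _ _ _ _ (by rintro ⟨_, h⟩; omega)]
      · rintro u ⟨j, rfl⟩ hu
        obtain ⟨_, h2, h3⟩ := hσ (.w j) (hwu j) hu
        have : fixup β1 (.w j) = β1 (.w j) := rfl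
        rw [this, hβ1, play_new _ _ _ _ _ _ (hwu j) hu h2 h3, ← hβ1]
        apply h3
        intro z hz
        apply fixup_agree
        have h2' : c (.w j) ≤ 2 * j.val + 1 := h2
        have := j.isLt
        omega
      · rw [hwi, hx]
        exact hw
    · refine hwin v (fun _ _ => rfl) ?_ hM
      rintro u ⟨j, rfl⟩ hu
      have : p ≤ 2 * j.val + 1 := hu
      have := j.isLt
      omega

/-- The reduction in step `m` gives the value `c` to `w l`, and its result is false at `v`. -/
def Fires {k : ℕ} (R : Refutation (game r n) k) (l : Fin r) (c : Bool) (m : ℕ)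
    (v : Var r n → Bool) : Prop :=
  m < R.len ∧ R.step m = .red (.w l) c ∧ ¬ R.line m v

def First {k : ℕ} (R : Refutation (game r n) k) (l : Fin r) (c : Bool)
    (v : Var r n → Bool) : Prop :=
  ∃ m, Fires R l c m v ∧ ∀ m' < m, ∀ c', ¬ Fires R l c' m' v

lemma first_unique {k : ℕ} (R : Refutation (game r n) k) (l : Fin r) (c c' : Bool)
    (v : Var r n → Bool) (h : First R l c v) (h' : First R l c' v) : c = c' := by
  obtain ⟨m, h1, h2⟩ := h
  obtain ⟨m', h1', h2'⟩ := h'
  rcases lt_trichotomy m m' with hlt | rfl | hgt
  · exact absurd h1 (h2' m hlt c)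
  · have hj := h1.2.1
    have hj' := h1'.2.1
    rw [hj] at hj'
    exact (Step.red.inj hj').2
  · exact absurd h1' (h2 m' hgt c')

lemma fires_congr {k : ℕ} (R : Refutation (game r n) k) (l : Fin r) (c : Bool) (m : ℕ)
    (v v' : Var r n → Bool) (h : (game r n).Agree (2 * l.val + 1) v v')
    (hf : Fires R l c m v) : Fires R l c m v' := by
  classical
  obtain ⟨hm, hj, hl⟩ := hf
  refine ⟨hm, hj, ?_⟩
  have hc := R.correct m hm
  rw [hj] at hc
  obtain ⟨_, h3, _⟩ := hc
  rw [← h3 v v']
  · exact hl
  · intro z hzw hz
    apply h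
    have hz' : rk z ≤ 2 * l.val + 1 := hz
    show rk z < 2 * l.val + 1
    cases z with
    | x l' s => simp only [rk] at hz' ⊢; omega
    | w l' =>
      simp only [rk] at hz' ⊢
      have : l' ≠ l := fun h => hzw (by rw [h])
      have : l'.val ≠ l.val := fun h => this (Fin.ext h)
      omega
    | t l' s => simp only [rk] at hz' ⊢; have := l.isLt; omega
    | e s => simp only [rk] at hz' ⊢; have := l.isLt; omega

lemma first_congr {k : ℕ} (R : Refutation (game r n) k) (l : Fin r) (c : Bool)
    (v v' : Var r n → Bool) (h : (game r n).Agree (2 * l.val + 1) v v') :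
    First R l c v ↔ First R l c v' := by
  constructor
  · rintro ⟨m, h1, h2⟩
    exact ⟨m, fires_congr R l c m v v' h h1, fun m' hm' c' hf =>
      h2 m' hm' c' (fires_congr R l c' m' v' v (fun z hz => (h z hz).symm) hf)⟩
  · rintro ⟨m, h1, h2⟩
    exact ⟨m, fires_congr R l c m v' v (fun z hz => (h z hz).symm) h1, fun m' hm' c' hf =>
      h2 m' hm' c' (fires_congr R l c' m' v v' h hf)⟩

open Classical in
/-- The extracted strategy. -/
noncomputable def strat {k : ℕ} (R : Refutation (game r n) k) (u : Var r n)
    (β : Var r n → Bool) : Bool :=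
  match u with
  | .w l => if First R l true β then true else if First R l false β then false
      else !(par (xs β l))
  | _ => false

lemma strat_congr {k : ℕ} (R : Refutation (game r n) k) (l : Fin r) (β γ : Var r n → Bool)
    (h : (game r n).Agree (2 * l.val + 1) β γ) :
    strat R (.w l) β = strat R (.w l) γ := by
  classical
  unfold strat
  simp only [first_congr R l true β γ h, first_congr R l false β γ h,
    xs_congr h l (by omega)]

lemma strat_first {k : ℕ} (R : Refutation (game r n) k) (l : Fin r) (β : Var r n → Bool)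
    (c : Bool) (h : First R l c β) : strat R (.w l) β = c := by
  unfold strat
  cases c with
  | true => simp [h]
  | false =>
    have : ¬ First R l true β := by
      intro h'
      exact absurd (first_unique R l _ _ β h h') (by simp)
    simp [h, this]

lemma strat_wrong {k : ℕ} (R : Refutation (game r n) k) (l : Fin r) (β : Var r n → Bool)
    (h : ¬ First R l (par (xs β l)) β) : strat R (.w l) β ≠ par (xs β l) := by
  by_cases h1 : First R l true β
  · rw [strat_first R l β true h1]
    intro h2
    rw [← h2] at h
    exact h h1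
  · by_cases h3 : First R l false β
    · rw [strat_first R l β false h3]
      intro h2
      rw [← h2] at h
      exact h h3
    · unfold strat
      simp [h1, h3]

/-- **Strategy extraction.** -/
theorem extraction (hn : 1 ≤ n) {k : ℕ} (R : Refutation (game r n) k) :
    ∀ (N : ℕ) (i : Fin r), i.val = N → i.val + k < r → ∀ v : Var r n → Bool,
      (∀ l : Fin r, l.val < i.val → v (.w l) = par (xs v l)) →
      First R i (par (xs v i)) v := by
  classical
  intro N
  induction N using Nat.strong_induction_on with
  | _ N ih =>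
    intro i hiN hik v hcorr
    by_contra hno
    set β := play (game r n) (strat R) (2 * i.val + 1) v with hβ
    have hwu : ∀ l : Fin r, (Var.w l : Var r n) ∈ (game r n).univ := fun l => ⟨l, rfl⟩
    have hx : ∀ (j : Fin r), xs β j = xs v j := by
      intro j
      funext s
      apply play_old
      rintro ⟨⟨l', hl'⟩, _⟩
      exact absurd hl' (by simp)
    have hagv : (game r n).Agree (2 * i.val + 1) v β := by
      intro z hz
      rw [hβ, play_old _ _ _ _ _ (by rintro ⟨_, h⟩; omega)]
    have hnew : ∀ l : Fin r, i.val ≤ l.val → β (.w l) = strat R (.w l) β := by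
      intro l hl
      exact play_new _ _ _ _ _ (2 * l.val + 1) (hwu l) (show 2 * i.val + 1 ≤ 2 * l.val + 1 by omega)
        (le_refl (2 * l.val + 1)) (strat_congr R l)
    have hold : ∀ l : Fin r, l.val < i.val → β (.w l) = v (.w l) := by
      intro l hl
      apply play_old
      rintro ⟨_, h⟩
      have : 2 * i.val + 1 ≤ 2 * l.val + 1 := h
      omega
    have hwrong : β (.w i) ≠ par (xs β i) := by
      rw [hnew i le_rfl]
      apply strat_wrong
      rw [← first_congr R i _ v β hagv, hx]
      exact hno
    set γ := fixup β with hγ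
    have hγw : ∀ l, γ (.w l) = β (.w l) := fun l => rfl
    have hγx : ∀ l, xs γ l = xs β l := fun l => rfl
    have hM : (game r n).Matrix γ := fixup_matrix β i hwrong
    have hag : (game r n).Agree (2 * r) β γ := fixup_agree β
    -- the values of the universal variables follow the first firing reductions
    have hfirst : ∀ (l : Fin r) (c : Bool), First R l c γ → γ (.w l) = c := by
      intro l c hl
      have hl' : First R l c β := by
        rw [first_congr R l c β γ (fun z hz => hag z (by have := l.isLt; omega))]
        exact hl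
      rw [hγw]
      by_cases hli : l.val < i.val
      · have h1 : First R l (par (xs β l)) β := by
          apply ih l.val (by omega) l rfl (by omega) β
          intro l' hl'
          rw [hold l' (by omega), hcorr l' (by omega), hx]
        rw [first_unique R l c _ β hl' h1, hold l hli, hcorr l hli, hx]
      · rw [hnew l (by omega)]
        exact strat_first R l β c hl'
    -- all lines are true
    have hall : ∀ m, m < R.len → R.line m γ := by
      intro m
      induction m using Nat.strong_induction_on with
      | _ m ihm =>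
        intro hm
        have hc := R.correct m hm
        have hprev : ∀ j < m, R.line j γ := fun j hj => ihm j hj (by omega)
        by_contra hfalse
        cases hstep : R.step m with
        | sem =>
          rw [hstep] at hc
          exact hfalse (hc γ hM hprev)
        | red u b =>
          rw [hstep] at hc
          obtain ⟨⟨l, rfl⟩, h3, h4⟩ := hc
          have hF : First R l b γ := by
            refine ⟨m, ⟨hm, hstep, hfalse⟩, ?_⟩
            rintro m' hm' c' ⟨_, _, h⟩
            exact h (hprev m' hm')
          have hb := hfirst l b hF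
          apply hfalse
          apply h4
          intro j hj _
          rw [← hb, Function.update_eq_self]
          exact hprev j hj
        | ax p =>
          rw [hstep] at hc
          exact not_wins hn k p γ i hik hM (by rw [hγw, hγx]; exact hwrong)
            (hc.2 γ hfalse)
    obtain ⟨m, hm, hm2⟩ := R.last
    exact hm2 γ (hall m hm)

/-- With `r` looks there is a refutation with one line. -/
theorem one_line (r n : ℕ) : ∃ R : Refutation (game r n) r, R.len = 1 := by
  classical
  refine ⟨⟨1, fun _ _ => False, fun _ => .ax 0, ?_, ⟨0, by omega, fun _ h => h⟩⟩, rfl⟩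
  intro i _
  refine ⟨fun _ _ _ => Iff.rfl, fun α _ => ?_⟩
  refine ⟨(Finset.range r).image (fun l => 2 * l + 1), (game r n).rank,
    fun u β => match u with
      | .w l => par (xs β l)
      | _ => false, ?_, ?_, ?_⟩
  · exact Finset.card_image_le.trans (by simp)
  · rintro u ⟨l, rfl⟩ _
    refine ⟨?_, le_rfl, ?_⟩
    · rw [Finset.mem_image]
      exact ⟨l.val, Finset.mem_range.2 l.isLt, rfl⟩
    · intro β γ hβγ
      simp only []
      rw [xs_congr hβγ l (show 2 * l.val < 2 * l.val + 1 by omega)]
  · intro β _ hβ hM
    obtain ⟨l, hl⟩ := matrix_wrong β hM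
    exact hl (hβ (.w l) ⟨l, rfl⟩ (Nat.zero_le _))

end Game

end Pool.Agent.H564R2.QF
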