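import Pool.Agent.H564R2.QF.Defs

/-!
# Refutations of quantified Boolean formulas with help for games with few looks

A (prenex) quantified Boolean formula over the set of variables `V` is given by the quantifier
block `rank v` of every variable, by the set of universal variables, and by the clauses of its
matrix. A clause is a list of literals, a literal is a pair of a variable and the value which makes
it true.
-/

namespace Pool.Agent.H564R2.QF

/-- A quantified Boolean formula. Variables of smaller rank are quantified further to the left. -/
structure QBF (V : Type) where
  rank : V → ℕ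
  univ : Set V
  clause : Set (List (V × Bool))

variable {V : Type}

/-- The matrix is true under the assignment `α`. -/
def QBF.Matrix (Φ : QBF V) (α : V → Bool) : Prop :=
  ∀ C ∈ Φ.clause, ∃ z ∈ C, α z.1 = z.2

/-- Both assignments have the same values on the variables of rank less than `p`. -/
def QBF.Agree (Φ : QBF V) (p : ℕ) (α β : V → Bool) : Prop :=
  ∀ v, Φ.rank v < p → α v = β v

/-- After the variables of rank less than `p` have got their values as in `α`, the universal
player has a winning strategy `σ` for the rest of the game which needs at most `k` looks at the
moves: the value of a universal variable `u` is determined by the values of the variables of rank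
less than `c u`, where `c u` is at most the rank of `u`, and `c` takes at most `k` values on the
universal variables which are still to be played. (So the formula remains false when the universal
variables of rank at least `p` are moved to the left into at most `k` blocks.) -/
def QBF.WinsWithLooks (Φ : QBF V) (k p : ℕ) (α : V → Bool) : Prop :=
  ∃ (C : Finset ℕ) (c : V → ℕ) (σ : V → (V → Bool) → Bool), C.card ≤ k ∧
    (∀ u ∈ Φ.univ, p ≤ Φ.rank u → c u ∈ C ∧ c u ≤ Φ.rank u ∧
      ∀ β γ, Φ.Agree (c u) β γ → σ u β = σ u γ) ∧
    ∀ β, Φ.Agree p α β → (∀ u ∈ Φ.univ, p ≤ Φ.rank u → β u = σ u β) → ¬ Φ.Matrix β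

/-- The kinds of steps of a refutation: semantic inference; universal reduction, which gives the
universal variable `u` the value `b`; axiom about the positions of rank `p`. -/
inductive Step (V : Type)
  | sem
  | red (u : V) (b : Bool)
  | ax (p : ℕ)

/-- Line `i` (an arbitrary Boolean function of the variables) is correctly derived.
* Semantic inference: it follows from the matrix and all the earlier lines.
* Reduction: it depends neither on `u` nor on variables to the right of (the block of) `u`, and it
  follows from the Boolean functions `g[u := b]`, where `g` is an earlier line which does not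
  depend on variables to the right of `u`.
* Axiom: it depends on the variables of rank less than `p` only, and in every position which
  falsifies it, the universal player wins with at most `k` looks. -/
def Correct [DecidableEq V] (Φ : QBF V) (k : ℕ) (line : ℕ → (V → Bool) → Prop) (i : ℕ) :
    Step V → Prop
  | .sem => ∀ α, Φ.Matrix α → (∀ j < i, line j α) → line i α
  | .red u b => u ∈ Φ.univ ∧
      (∀ α β, (∀ v ≠ u, Φ.rank v ≤ Φ.rank u → α v = β v) → (line i α ↔ line i β)) ∧
      ∀ α, (∀ j < i, (∀ β γ, Φ.Agree (Φ.rank u + 1) β γ → (line j β ↔ line j γ)) →
        line j (Function.update α u b)) → line i α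
  | .ax p => (∀ α β, Φ.Agree p α β → (line i α ↔ line i β)) ∧
      ∀ α, ¬ line i α → Φ.WinsWithLooks k p α

/-- A refutation of `Φ` modulo games with `k` looks: a list of correctly derived lines, one of
which is the constant false. -/
structure Refutation [DecidableEq V] (Φ : QBF V) (k : ℕ) where
  len : ℕ
  line : ℕ → (V → Bool) → Prop
  step : ℕ → Step V
  correct : ∀ i < len, Correct Φ k line i (step i)
  last : ∃ i < len, ∀ α, ¬ line i α

/-- The variables of the formula `game r n`. -/
inductive Var (r n : ℕ)
  | x (l : Fin r) (s : Fin n)
  | w (l : Fin r)
  | t (l : Fin r) (s : Fin (n + 1))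
  | e (l : Fin (r + 1))

noncomputable instance instDecVar {r n : ℕ} : DecidableEq (Var r n) := Classical.decEq _

/-- The blocks of `game r n`: for `l = 0, ..., r - 1` the existential variables `x l s`,
and then the universal variable `w l`; finally the existential variables `t l s`, `e l`. -/
def rk {r n : ℕ} : Var r n → ℕ
  | .x l _ => 2 * l.val
  | .w l => 2 * l.val + 1
  | .t _ _ => 2 * r
  | .e _ => 2 * r

/-- The clauses of `game r n`. They say that `t l 0 = 0`, `t l (s+1) = t l s + x l s`
modulo 2 (so that `t l n` is the parity of `x l`), that `e 0` is false, that `e (l+1)` implies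
`e l` or `w l ≠ t l n`, and that `e r` is true. -/
inductive IsClause (r n : ℕ) : List (Var r n × Bool) → Prop
  | t0 (l) : IsClause r n [(.t l 0, false)]
  | t1 (l s) : IsClause r n [(.x l s, true), (.t l s.castSucc, false), (.t l s.succ, true)]
  | t2 (l s) : IsClause r n [(.x l s, true), (.t l s.castSucc, true), (.t l s.succ, false)]
  | t3 (l s) : IsClause r n [(.x l s, false), (.t l s.castSucc, true), (.t l s.succ, true)]
  | t4 (l s) : IsClause r n [(.x l s, false), (.t l s.castSucc, false), (.t l s.succ, false)]
  | e0 : IsClause r n [(.e 0, false)]
  | ew1 (l) : IsClause r n
      [(.e l.succ, false), (.e l.castSucc, true), (.w l, true), (.t l (Fin.last n), true)]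
  | ew2 (l) : IsClause r n
      [(.e l.succ, false), (.e l.castSucc, true), (.w l, false), (.t l (Fin.last n), false)]
  | er : IsClause r n [(.e (Fin.last r), true)]

/-- The formula: `∃ x₀ ∀ w₀ ∃ x₁ ∀ w₁ ... ∃ t e`, some `w l` is not the parity of `x l`, written
with `4`-clauses. -/
def game (r n : ℕ) : QBF (Var r n) where
  rank := rk
  univ := Set.range .w
  clause := {C | IsClause r n C}

end Pool.Agent.H564R2.QF
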