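import Pool.Agent.H564R2.QF.Approx
import Pool.Agent.H564R2.QF.ListBound
import Pool.Agent.H564R2.QF.Game

/-!
# The lower bound for one round
-/

namespace Pool.Agent.H564R2.QF

variable {V : Type}

/-- The Boolean function `F` is given by a formula with at most `s` leaves (with `∧`, `∨`, `¬`),
each leaf being an arbitrary Boolean function of real degree at most `w`, for example a function of
`w` variables or a decision tree of depth `w`. -/
def FormulaOver (s w : ℕ) (F : (V → Bool) → Prop) : Prop :=
  ∃ φ : Fml {g : (V → Bool) → Bool // (fun z => if g z = true then (1 : ℝ) else 0) ∈ LowDeg V w},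
    φ.size ≤ s ∧ ∀ z, F z ↔ φ.eval (fun g => g.1 z) = true

/-- change the letters of a formula -/
def Fml.map {W : Type} (f : V → W) : Fml V → Fml W
  | .const b => .const b
  | .var v => .var (f v)
  | .neg φ => .neg (φ.map f)
  | .and φ ψ => .and (φ.map f) (ψ.map f)
  | .or φ ψ => .or (φ.map f) (ψ.map f)

lemma Fml.size_map {W : Type} (f : V → W) (φ : Fml V) : (φ.map f).size = φ.size := by
  induction φ with
  | const b => rfl
  | var v => rfl
  | neg φ ih => exact ih
  | and φ ψ ih1 ih2 => simp only [Fml.map, Fml.size, ih1, ih2]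
  | or φ ψ ih1 ih2 => simp only [Fml.map, Fml.size, ih1, ih2]

lemma Fml.eval_map {W : Type} (f : V → W) (φ : Fml V) (z : W → Bool) :
    (φ.map f).eval z = φ.eval (fun v => z (f v)) := by
  induction φ with
  | const b => rfl
  | var v => rfl
  | neg φ ih => simp only [Fml.map, Fml.eval, ih]
  | and φ ψ ih1 ih2 => simp only [Fml.map, Fml.eval, ih1, ih2]
  | or φ ψ ih1 ih2 => simp only [Fml.map, Fml.eval, ih1, ih2]

lemma FormulaOver.of_formula {s : ℕ} {F : (V → Bool) → Prop} (φ : Fml V) (hφ : φ.size ≤ s)
    (h : ∀ z, F z ↔ φ.eval z = true) : FormulaOver s 1 F := by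
  refine ⟨φ.map fun v => ⟨fun z => z v, LowDeg.lit v true⟩, ?_, fun z => ?_⟩
  · rw [Fml.size_map]
    exact hφ
  · rw [Fml.eval_map]
    exact h z

/-- Composition with functions of low degree. -/
lemma LowDeg.comp {Λ : Type} {D w : ℕ} {P : (Λ → Bool) → ℝ} (hP : P ∈ LowDeg Λ D)
    (g : Λ → (V → Bool) → Bool)
    (hg : ∀ l, (fun z => if g l z = true then (1 : ℝ) else 0) ∈ LowDeg V w) :
    (fun z => P (fun l => g l z)) ∈ LowDeg V (D * w) := by
  induction hP using Submodule.span_induction with
  | mem f hf =>
    obtain ⟨S, hS, rfl⟩ := hf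
    have h : (fun z => chi S (fun l => g l z)) =
        ∏ l ∈ S, (fun z => if g l z = true then (-1 : ℝ) else 1) := by
      funext z
      rw [Finset.prod_apply]
      rfl
    rw [h]
    apply LowDeg.of_le (LowDeg.prod S (fun _ => w) _ _)
    · rw [Finset.sum_const, smul_eq_mul]
      exact Nat.mul_le_mul_right w hS
    · intro l _
      have h2 : (fun z => if g l z = true then (-1 : ℝ) else 1) =
          (fun _ => (1 : ℝ)) + (-2 : ℝ) • (fun z => if g l z = true then (1 : ℝ) else 0) := by
        funext z
        simp only [Pi.add_apply, Pi.smul_apply, smul_eq_mul]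
        split_ifs <;> norm_num
      rw [h2]
      exact Submodule.add_mem _ (LowDeg.const _ _) (Submodule.smul_mem _ _ (hg l))
  | zero => exact Submodule.zero_mem _
  | add a b _ _ ha hb => exact Submodule.add_mem _ ha hb
  | smul c a _ ha => exact Submodule.smul_mem _ c ha

lemma chi_univ_eq {n : ℕ} (a : Fin n → Bool) :
    chi Finset.univ a = if par a = true then -1 else 1 := by
  unfold chi par
  rw [Finset.prod_ite]
  simp only [Finset.prod_const, mul_one, one_pow]
  by_cases h : Odd (Finset.univ.filter fun s => a s = true).card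
  · rw [Odd.neg_one_pow h]
    simp [h]
  · rw [Even.neg_one_pow (Nat.not_odd_iff_even.1 h)]
    simp [h]

variable {r n : ℕ}

/-- The reductions of `w i` are at least `2 ^ (c n ^ 2 / (w ^ 2 s))`. -/
theorem one_round {k w s : ℕ} (hn : 1 ≤ n) (hw : 1 ≤ w) (hns : n ≤ w * s)
    (R : Refutation (game r n) k) (i : Fin r) (hik : i.val + k < r)
    (hR : ∀ j < R.len, ∀ b, R.step j = .red (.w i) b → FormulaOver s w (R.line j))
    (I : Finset ℕ) (hI : ∀ j, j ∈ I ↔ j < R.len ∧ ∃ b, R.step j = .red (.w i) b) :
    (2 : ℝ) ^ (1 / (32 * 204480 ^ 2) * (n : ℝ) ^ 2 / ((w : ℝ) ^ 2 * s)) ≤ I.card := by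
  classical
  -- the decision list
  set h0 : Var r n → Bool := fun _ => false with hh0
  set f : ℕ → (Fin n → Bool) → Bool := fun j a => decide (¬ R.line j (put i a h0)) with hf
  set b : ℕ → ℝ := fun j => if R.step j = .red (.w i) true then -1 else 1 with hb
  have hfirst0 : ∀ a : Fin n → Bool, First R i (par a) (put i a h0) := by
    intro a
    have := extraction hn R i.val i rfl hik (put i a h0) (by
      intro l hl
      have hne : l ≠ i := fun he => by rw [he] at hl; exact lt_irrefl _ hl
      have h1 : xs (put i a h0) l = fun _ => false := by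
        funext s; simp [xs, put, hne, hh0]
      rw [h1]
      simp [put, hh0, par])
    rwa [xs_put] at this
  have hfirst : ∀ a : Fin n → Bool, ∃ j ∈ I, f j a = true ∧ b j = chi Finset.univ a ∧
      ∀ j' ∈ I, j' < j → f j' a = false := by
    intro a
    obtain ⟨j, ⟨hj1, hj2, hj3⟩, hmin⟩ := hfirst0 a
    refine ⟨j, (hI j).2 ⟨hj1, _, hj2⟩, by simp [hf, hj3], ?_, ?_⟩
    · rw [chi_univ_eq, hb]
      simp only [hj2]
      cases par a <;> simp
    · intro j' hj' hlt
      obtain ⟨hj'1, c', hj'2⟩ := (hI j').1 hj'
      have := hmin j' hlt c'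
      by_contra hcon
      apply this
      refine ⟨hj'1, hj'2, ?_⟩
      simpa [hf] using hcon
  -- at least two reductions
  have hI2 : 2 ≤ I.card := by
    obtain ⟨a, ha⟩ := par_surj hn true
    obtain ⟨a', ha'⟩ := par_surj hn false
    obtain ⟨j, hj, _, hj2, _⟩ := hfirst a
    obtain ⟨j', hj', _, hj2', _⟩ := hfirst a'
    have hne : j ≠ j' := by
      rintro rfl
      rw [hj2, chi_univ_eq, chi_univ_eq, ha, ha'] at hj2'
      norm_num at hj2'
    have : ({j, j'} : Finset ℕ) ⊆ I := by
      intro z hz
      rcases Finset.mem_insert.1 hz with rfl | hz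
      · exact hj
      · rw [Finset.mem_singleton.1 hz]; exact hj'
    calc 2 = ({j, j'} : Finset ℕ).card := (Finset.card_pair hne).symm
      _ ≤ _ := Finset.card_le_card this
  -- parameters
  have hs : 1 ≤ s := by
    rcases Nat.eq_zero_or_pos s with rfl | h
    · omega
    · exact h
  obtain ⟨A, hA⟩ : ∃ A, A = 204480 := ⟨_, rfl⟩
  obtain ⟨m, hm⟩ : ∃ m, m = n ^ 2 / (4 * A ^ 2 * w ^ 2 * s) := ⟨_, rfl⟩
  have hpos : 0 < 4 * A ^ 2 * w ^ 2 * s := by
    have : 0 < A := by omega
    positivity
  have hm1 : m * (4 * A ^ 2 * w ^ 2 * s) ≤ n ^ 2 := by rw [hm]; exact Nat.div_mul_le_self _ _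
  have hm2 : n ^ 2 < (m + 1) * (4 * A ^ 2 * w ^ 2 * s) := by
    rw [hm, mul_comm]; exact Nat.lt_mul_div_succ _ hpos
  have h4 : 4 ^ m ≤ 10 * I.card := by
    rcases Nat.eq_zero_or_pos m with h0 | hmpos
    · rw [h0]
      omega
    obtain ⟨T, hT⟩ : ∃ T, T = n / (A * m * w) := ⟨_, rfl⟩
    have hAmw : 0 < A * m * w := by
      have : 0 < A := by omega
      positivity
    have hT1 : T * (A * m * w) ≤ n := by rw [hT]; exact Nat.div_mul_le_self _ _
    have hTpos : 1 ≤ T := by
      rw [hT, Nat.le_div_iff_mul_le hAmw, one_mul]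
      by_contra hcon
      push Not at hcon
      have h1 : n * n < (A * m * w) * (w * s) := by
        calc n * n ≤ n * (w * s) := Nat.mul_le_mul_left _ hns
          _ < (A * m * w) * (w * s) := by
            apply Nat.mul_lt_mul_of_pos_right hcon
            exact Nat.mul_pos (by omega) (by omega)
      have h2 : (A * m * w) * (w * s) ≤ m * (4 * A ^ 2 * w ^ 2 * s) := by
        have : m * (4 * A ^ 2 * w ^ 2 * s) = (A * m * w) * (w * s) * (4 * A) := by ring
        rw [this]
        exact Nat.le_mul_of_pos_right _ (by omega)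
      rw [← sq] at h1
      omega
    have hT2 : n < 2 * T * (A * m * w) := by
      have h1 : n < (T + 1) * (A * m * w) := by
        rw [hT, mul_comm]; exact Nat.lt_mul_div_succ _ hAmw
      calc n < (T + 1) * (A * m * w) := h1
        _ ≤ 2 * T * (A * m * w) := Nat.mul_le_mul_right _ (by omega)
    have hsT : s ≤ m * T ^ 2 := by
      by_contra hcon
      push Not at hcon
      have h1 : n * n < (2 * T * (A * m * w)) * (2 * T * (A * m * w)) :=
        Nat.mul_lt_mul_of_lt_of_lt hT2 hT2
      have h2 : (2 * T * (A * m * w)) * (2 * T * (A * m * w)) =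
          (m * T ^ 2) * (m * (4 * A ^ 2 * w ^ 2)) := by ring
      have h3 : (m * T ^ 2) * (m * (4 * A ^ 2 * w ^ 2)) ≤ s * (m * (4 * A ^ 2 * w ^ 2)) :=
        Nat.mul_le_mul_right _ hcon.le
      have h5 : s * (m * (4 * A ^ 2 * w ^ 2)) = m * (4 * A ^ 2 * w ^ 2 * s) := by ring
      rw [← sq] at h1
      omega
    apply list_bound (D := 12780 * m * T * w * 1) hn ?_ I f b hfirst
    · intro j hj
      obtain ⟨hj1, c, hj2⟩ := (hI j).1 hj
      obtain ⟨φ, hφs, hφ⟩ := hR j hj1 c hj2
      obtain ⟨P, hP, hPφ⟩ := formula_approx φ.neg m T hmpos hTpos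
        (show φ.neg.size ≤ m * T ^ 2 from hφs.trans hsT)
      have hP2 := LowDeg.comp hP (fun g => g.1) (fun g => g.2)
      have hP3 := LowDeg.comp (V := Fin n) (w := 1) hP2
        (fun (v : Var r n) (a : Fin n → Bool) => put i a h0 v) (by
          intro v
          cases v with
          | x l s =>
            by_cases hl : l = i
            · have : (fun a : Fin n → Bool => if put i a h0 (.x l s) = true then (1 : ℝ) else 0) =
                  fun a => if a s = true then (1 : ℝ) else 0 := by
                funext a; simp [put, hl]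
              rw [this]
              exact LowDeg.lit s true
            · have : (fun a : Fin n → Bool => if put i a h0 (.x l s) = true then (1 : ℝ) else 0) =
                  fun _ => (0 : ℝ) := by
                funext a; simp [put, hl, hh0]
              rw [this]
              exact LowDeg.const _ _
          | w l =>
            have : (fun a : Fin n → Bool =>
                if put i a h0 (.w l) = true then (1 : ℝ) else 0) = fun _ => (0 : ℝ) := by
              funext a; simp [put, hh0]
            rw [this]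
            exact LowDeg.const _ _
          | t l s =>
            have : (fun a : Fin n → Bool =>
                if put i a h0 (.t l s) = true then (1 : ℝ) else 0) = fun _ => (0 : ℝ) := by
              funext a; simp [put, hh0]
            rw [this]
            exact LowDeg.const _ _
          | e s =>
            have : (fun a : Fin n → Bool =>
                if put i a h0 (.e s) = true then (1 : ℝ) else 0) = fun _ => (0 : ℝ) := by
              funext a; simp [put, hh0]
            rw [this]
            exact LowDeg.const _ _)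
      refine ⟨_, hP3, fun a => ?_⟩
      have h1 := hPφ (fun g => g.1 (put i a h0))
      have h2 : (φ.neg.eval (fun g => g.1 (put i a h0))) = f j a := by
        have h3 := hφ (put i a h0)
        show (!(φ.eval (fun g => g.1 (put i a h0)))) = decide (¬ R.line j (put i a h0))
        cases h4 : φ.eval (fun g => g.1 (put i a h0)) with
        | true =>
          have : R.line j (put i a h0) := h3.2 h4
          simp [this]
        | false =>
          have : ¬ R.line j (put i a h0) := fun h => by
            rw [h3.1 h] at h4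
            exact absurd h4 (by simp)
          simp [this]
      rw [h2] at h1
      exact h1
    · calc 16 * (12780 * m * T * w * 1) = T * (204480 * m * w) := by ring
        _ ≤ n := by rw [← hA]; exact hT1
  -- conclusion
  have h8 : 4 ^ m ≤ I.card ^ 8 := by
    have h7 : 2 ^ 7 ≤ I.card ^ 7 := Nat.pow_le_pow_left hI2 7
    calc 4 ^ m ≤ 10 * I.card := h4
      _ ≤ I.card ^ 7 * I.card := Nat.mul_le_mul_right _ (by omega)
      _ = I.card ^ 8 := by ring
  have hcardpos : (0 : ℝ) < I.card := by
    have : 0 < I.card := by omega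
    exact_mod_cast this
  have hq : (2 : ℝ) ^ ((m : ℝ) / 4) ≤ I.card := by
    have h9 : ((2 : ℝ) ^ ((m : ℝ) / 4)) ^ 8 ≤ (I.card : ℝ) ^ 8 := by
      rw [← Real.rpow_natCast, ← Real.rpow_mul (by norm_num)]
      have : (m : ℝ) / 4 * (8 : ℕ) = (2 * m : ℕ) := by push_cast; ring
      rw [this, Real.rpow_natCast, pow_mul]
      norm_num
      exact_mod_cast h8
    exact le_of_pow_le_pow_left₀ (by norm_num) hcardpos.le h9
  have hexp : 1 / (32 * 204480 ^ 2) * (n : ℝ) ^ 2 / ((w : ℝ) ^ 2 * s) ≤ ((m : ℝ) + 1) / 8 := by
    have hws : (0 : ℝ) < (w : ℝ) ^ 2 * s := by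
      have h1 : (0 : ℝ) < w := by exact_mod_cast hw
      have h2 : (0 : ℝ) < s := by exact_mod_cast hs
      positivity
    rw [div_le_div_iff₀ hws (by norm_num)]
    have h1 : ((n ^ 2 : ℕ) : ℝ) < (((m + 1) * (4 * A ^ 2 * w ^ 2 * s) : ℕ) : ℝ) := by
      exact_mod_cast hm2
    rw [hA] at h1
    push_cast at h1
    nlinarith
  rcases Nat.eq_zero_or_pos m with h0 | hmpos
  · have h10 : (2 : ℝ) ^ (1 / (32 * 204480 ^ 2) * (n : ℝ) ^ 2 / ((w : ℝ) ^ 2 * s)) ≤ 2 ^ (1 : ℝ) := by
      apply Real.rpow_le_rpow_of_exponent_le (by norm_num)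
      refine hexp.trans ?_
      rw [h0]
      norm_num
    rw [Real.rpow_one] at h10
    have h11 : (2 : ℝ) ≤ I.card := by exact_mod_cast hI2
    linarith
  · refine le_trans ?_ hq
    apply Real.rpow_le_rpow_of_exponent_le (by norm_num)
    refine hexp.trans ?_
    have : (1 : ℝ) ≤ m := by exact_mod_cast hmpos
    linarith

/-- All rounds. -/
theorem all_rounds {k w s : ℕ} (hn : 1 ≤ n) (hw : 1 ≤ w) (hns : n ≤ w * s)
    (R : Refutation (game r n) k)
    (hR : ∀ j < R.len, ∀ i b, R.step j = .red (.w i) b → FormulaOver s w (R.line j)) :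
    ((r - k : ℕ) : ℝ) * (2 : ℝ) ^ (1 / (32 * 204480 ^ 2) * (n : ℝ) ^ 2 / ((w : ℝ) ^ 2 * s)) ≤
      R.len := by
  classical
  set I : Fin r → Finset ℕ := fun i => (Finset.range R.len).filter fun j =>
    ∃ b, R.step j = .red (.w i) b with hI
  have hdisj : (((Finset.univ : Finset (Fin r)).filter fun i => i.val + k < r).sum fun i =>
      (I i).card) ≤ R.len := by
    rw [← Finset.card_biUnion]
    · calc _ ≤ (Finset.range R.len).card := by
            apply Finset.card_le_card
            intro j hj
            rw [Finset.mem_biUnion] at hj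
            obtain ⟨i, _, hi⟩ := hj
            exact (Finset.mem_filter.1 hi).1
        _ = R.len := Finset.card_range _
    · intro i _ i' _ hne
      show Disjoint _ _
      rw [Finset.disjoint_left]
      intro j hj hj'
      obtain ⟨_, b1, h1⟩ := Finset.mem_filter.1 hj
      obtain ⟨_, b2, h2⟩ := Finset.mem_filter.1 hj'
      rw [h1] at h2
      exact hne (Var.w.inj (Step.red.inj h2).1)
  have hcard : ((Finset.univ : Finset (Fin r)).filter fun i => i.val + k < r).card = r - k := by
    rw [← Finset.card_range (r - k)]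
    refine Finset.card_bij (fun i _ => i.val) ?_ ?_ ?_
    · intro i hi
      have := (Finset.mem_filter.1 hi).2
      rw [Finset.mem_range]
      omega
    · intro i _ i' _ h
      exact Fin.ext h
    · intro b hb
      rw [Finset.mem_range] at hb
      exact ⟨⟨b, by omega⟩, Finset.mem_filter.2 ⟨Finset.mem_univ _, by
        show b + k < r
        omega⟩, rfl⟩
  have hsum : ((r - k : ℕ) : ℝ) *
      (2 : ℝ) ^ (1 / (32 * 204480 ^ 2) * (n : ℝ) ^ 2 / ((w : ℝ) ^ 2 * s)) ≤
      ∑ i ∈ (Finset.univ : Finset (Fin r)).filter fun i => i.val + k < r, ((I i).card : ℝ) := by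
    rw [← hcard, ← nsmul_eq_mul, ← Finset.sum_const]
    apply Finset.sum_le_sum
    intro i hi
    apply one_round hn hw hns R i (Finset.mem_filter.1 hi).2
      (fun j hj b hb => hR j hj i b hb) (I i)
    intro j
    rw [hI]
    simp [Finset.mem_filter]
  refine hsum.trans ?_
  exact_mod_cast hdisj

end Pool.Agent.H564R2.QF
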