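import Pool.Agent.H564R2.QF.Game

/-!
Refutations of `game 1 n` by small formulas: guess the parities of the blocks.
-/

namespace Pool.Agent.H564R2.QF

namespace Upper

/-- sum modulo two of the first `m` values -/
def xorF : ℕ → (ℕ → Bool) → Bool
  | 0, _ => false
  | m + 1, g => xor (xorF m g) (g m)

theorem xorF_congr (m : ℕ) (g h : ℕ → Bool) (hgh : ∀ k < m, g k = h k) : xorF m g = xorF m h := by
  induction m with
  | zero => rfl
  | succ m ih =>
    simp only [xorF]
    rw [ih (fun k hk => hgh k (by omega)), hgh m (by omega)]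

theorem xorF_add (a b : ℕ) (g : ℕ → Bool) :
    xorF (a + b) g = xor (xorF a g) (xorF b (fun k => g (a + k))) := by
  induction b with
  | zero => simp [xorF]
  | succ b ih =>
    rw [← Nat.add_assoc]
    simp only [xorF]
    rw [ih, Bool.xor_assoc]

theorem xorF_mul (B m : ℕ) (g : ℕ → Bool) :
    xorF (B * m) g = xorF B (fun b => xorF m (fun k => g (b * m + k))) := by
  induction B with
  | zero => simp [xorF]
  | succ B ih =>
    rw [Nat.succ_mul, xorF_add, ih]
    simp only [xorF]

theorem xorF_false (m : ℕ) (g : ℕ → Bool) (h : ∀ k < m, g k = false) : xorF m g = false := by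
  induction m with
  | zero => rfl
  | succ m ih =>
    simp only [xorF]
    rw [ih (fun k hk => h k (by omega)), h m (by omega)]
    rfl

/-- extension by `false` -/
def ext0 {n : ℕ} (a : Fin n → Bool) (k : ℕ) : Bool := if h : k < n then a ⟨k, h⟩ else false

theorem par_eq {n : ℕ} (a : Fin n → Bool) : par a = xorF n (ext0 a) := by
  have key : ∀ s, s ≤ n → tv a s = xorF s (ext0 a) := by
    intro s
    induction s with
    | zero => intro _; rw [tv_zero]; rfl
    | succ s ih =>
      intro hs
      have h := tv_succ a ⟨s, by omega⟩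
      simp only at h
      rw [h, ih (by omega)]
      simp only [xorF]
      congr 1
      rw [ext0, dif_pos (show s < n by omega)]
  rw [← tv_last]
  exact key n le_rfl

theorem par_blocks {n : ℕ} (a : Fin n → Bool) (B m : ℕ) (h : n ≤ B * m) :
    par a = xorF B (fun b => xorF m (fun k => ext0 a (b * m + k))) := by
  rw [par_eq, ← xorF_mul]
  obtain ⟨d, hd⟩ := Nat.exists_eq_add_of_le h
  rw [hd, xorF_add, xorF_false d]
  · simp
  · intro k _
    rw [ext0, dif_neg (by omega)]

variable {V : Type}

/-- parity formula -/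
def parF : ℕ → (ℕ → Fml V) → Fml V
  | 0, f => f 0
  | j + 1, f => .or (.and (parF j f) (.neg (parF j (fun k => f (2 ^ j + k)))))
      (.and (.neg (parF j f)) (parF j (fun k => f (2 ^ j + k))))

theorem parF_size (j : ℕ) (f : ℕ → Fml V) (hf : ∀ k, (f k).size ≤ 1) :
    (parF j f).size ≤ 4 ^ j := by
  induction j generalizing f with
  | zero => simpa [parF] using hf 0
  | succ j ih =>
    have h1 := ih f hf
    have h2 := ih (fun k => f (2 ^ j + k)) (fun k => hf _)
    simp only [parF, Fml.size]
    rw [pow_succ]
    omega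

theorem parF_eval (j : ℕ) (f : ℕ → Fml V) (z : V → Bool) :
    (parF j f).eval z = xorF (2 ^ j) (fun k => (f k).eval z) := by
  induction j generalizing f with
  | zero => simp [parF, xorF]
  | succ j ih =>
    rw [pow_succ, Nat.mul_two, xorF_add, ← ih f, ← ih (fun k => f (2 ^ j + k))]
    simp only [parF, Fml.eval]
    cases (parF j f).eval z <;> cases (parF j (fun k => f (2 ^ j + k))).eval z <;> rfl

/-- conjunction of the literals `P b = testBit i b`, for `b < B` -/
def patF (i : ℕ) (P : ℕ → Fml V) : ℕ → Fml V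
  | 0 => .const true
  | b + 1 => .and (patF i P b) (if i.testBit b = true then P b else .neg (P b))

theorem patF_size (i : ℕ) (P : ℕ → Fml V) (s : ℕ) (hP : ∀ b, (P b).size ≤ s) (B : ℕ) :
    (patF i P B).size ≤ B * s := by
  induction B with
  | zero => simp [patF, Fml.size]
  | succ B ih =>
    simp only [patF, Fml.size]
    have h := hP B
    have : (if i.testBit B = true then P B else .neg (P B)).size ≤ s := by
      split_ifs
      · exact h
      · exact h
    rw [Nat.succ_mul]
    omega

theorem patF_eval (i : ℕ) (P : ℕ → Fml V) (z : V → Bool) (B : ℕ) :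
    (patF i P B).eval z = true ↔ ∀ b < B, (P b).eval z = i.testBit b := by
  induction B with
  | zero => simp [patF, Fml.eval]
  | succ B ih =>
    simp only [patF, Fml.eval, Bool.and_eq_true]
    rw [ih]
    have key : (if i.testBit B = true then P B else .neg (P B)).eval z = true ↔
        (P B).eval z = i.testBit B := by
      split_ifs with h
      · rw [h]
      · simp only [Bool.not_eq_true] at h
        rw [h]
        simp [Fml.eval]
    rw [key]
    constructor
    · rintro ⟨h1, h2⟩ b hb
      rcases Nat.lt_succ_iff_lt_or_eq.1 hb with h | rfl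
      · exact h1 b h
      · exact h2
    · intro h
      exact ⟨fun b hb => h b (by omega), h B (by omega)⟩

/-- variables as formulas -/
def fx (n : ℕ) (k : ℕ) : Fml (Var 1 n) :=
  if h : k < n then .var (.x 0 ⟨k, h⟩) else .const false

theorem fx_size (n k : ℕ) : (fx n k).size ≤ 1 := by
  rw [fx]; split_ifs <;> simp [Fml.size]

theorem fx_eval (n k : ℕ) (z : Var 1 n → Bool) : (fx n k).eval z = ext0 (xs z 0) k := by
  rw [fx, ext0]; split_ifs <;> simp [Fml.eval, xs]

/-- parity of block `b` -/
def blk (n j : ℕ) (a : Fin n → Bool) (b : ℕ) : Bool :=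
  xorF (2 ^ j) (fun k => ext0 a (b * 2 ^ j + k))

/-- formula for the parity of block `b` -/
def blkF (n j : ℕ) (b : ℕ) : Fml (Var 1 n) := parF j (fun k => fx n (b * 2 ^ j + k))

theorem blkF_size (n j b : ℕ) : (blkF n j b).size ≤ 4 ^ j :=
  parF_size _ _ fun _ => fx_size _ _

theorem blkF_eval (n j b : ℕ) (z : Var 1 n → Bool) : (blkF n j b).eval z = blk n j (xs z 0) b := by
  rw [blkF, parF_eval, blk]
  exact xorF_congr _ _ _ fun k _ => fx_eval _ _ _

/-- `i` is the pattern of the block parities -/
def Pat (n j B i : ℕ) (a : Fin n → Bool) : Prop := ∀ b < B, blk n j a b = i.testBit b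

/-- the xor of a pattern -/
def xc (B i : ℕ) : Bool := xorF B (fun b => i.testBit b)

theorem pat_par {n j B i : ℕ} {a : Fin n → Bool} (h : n ≤ B * 2 ^ j) (hp : Pat n j B i a) :
    par a = xc B i := by
  rw [par_blocks a B (2 ^ j) h, xc]
  exact xorF_congr _ _ _ fun b hb => hp b hb

theorem exists_pat (n j B : ℕ) (a : Fin n → Bool) : ∃ i < 2 ^ B, Pat n j B i a := by
  refine ⟨Nat.ofBits (fun b : Fin B => blk n j a b), Nat.ofBits_lt_two_pow _, ?_⟩
  intro b hb
  rw [Nat.testBit_ofBits_lt _ _ hb]

/-- lines of the refutation -/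
def ln (n j B : ℕ) (k : ℕ) (z : Var 1 n → Bool) : Prop :=
  if k < 2 ^ B then (¬ Pat n j B k (xs z 0) ∨ z (.w 0) ≠ xc B k)
  else if k < 2 * 2 ^ B then ¬ Pat n j B (k - 2 ^ B) (xs z 0)
  else False

/-- steps of the refutation -/
def stp (n B : ℕ) (k : ℕ) : Step (Var 1 n) :=
  if k < 2 ^ B then .sem
  else if k < 2 * 2 ^ B then .red (.w 0) (xc B (k - 2 ^ B))
  else .sem

theorem rank_x (n : ℕ) (l : Fin 1) (s : Fin n) : (game 1 n).rank (.x l s) = 0 := by
  have : l = 0 := Subsingleton.elim _ _
  subst this
  rfl

theorem rank_w (n : ℕ) (l : Fin 1) : (game 1 n).rank (.w l) = 1 := by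
  have : l = 0 := Subsingleton.elim _ _
  subst this
  rfl

end Upper

open Upper in
/-- **Upper bound.** -/
theorem upper (n B : ℕ) (hB : 1 ≤ B) (hBn : B ≤ n) :
    ∃ R : Refutation (game 1 n) 0, R.len = 2 * 2 ^ B + 1 ∧
      ∀ j < R.len, ∃ φ : Fml (Var 1 n), φ.size * B ≤ 4 * n ^ 2 + B ∧
        ∀ z, R.line j z ↔ φ.eval z = true := by
  classical
  -- the size of the blocks
  obtain ⟨j, hj1, hj2⟩ : ∃ j, n ≤ B * 2 ^ j ∧ B * 2 ^ j ≤ 2 * n := by
    have hex : ∃ j, n ≤ B * 2 ^ j := by
      refine ⟨n, ?_⟩
      have h1 : n < 2 ^ n := Nat.lt_two_pow_self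
      calc n ≤ 1 * 2 ^ n := by omega
        _ ≤ B * 2 ^ n := Nat.mul_le_mul_right _ hB
    refine ⟨Nat.find hex, Nat.find_spec hex, ?_⟩
    rcases Nat.eq_zero_or_pos (Nat.find hex) with h0 | hpos
    · rw [h0]; omega
    · have h := Nat.find_min hex (m := Nat.find hex - 1) (by omega)
      have e : Nat.find hex = (Nat.find hex - 1) + 1 := by omega
      rw [e, pow_succ]
      set t := 2 ^ (Nat.find hex - 1)
      rw [not_le] at h
      nlinarith
  have hxw : ∀ (β γ : Var 1 n → Bool), (∀ s : Fin n, β (.x 0 s) = γ (.x 0 s)) →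
      xs β 0 = xs γ 0 := fun β γ h => funext fun s => h s
  have hcorr : ∀ i < 2 * 2 ^ B + 1, Correct (game 1 n) 0 (ln n j B) i (stp n B i) := by
    intro i hi
    by_cases h1 : i < 2 ^ B
    · rw [stp, if_pos h1]
      intro α hM _
      rw [ln, if_pos h1]
      obtain ⟨l, hl⟩ := matrix_wrong α hM
      have hl0 : l = 0 := Subsingleton.elim _ _
      subst hl0
      by_cases hp : Pat n j B i (xs α 0)
      · right
        rw [← pat_par hj1 hp]
        exact hl
      · exact Or.inl hp
    · by_cases h2 : i < 2 * 2 ^ B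
      · rw [stp, if_neg h1, if_pos h2]
        refine ⟨⟨0, rfl⟩, ?_, ?_⟩
        · intro α β hαβ
          rw [ln, ln, if_neg h1, if_pos h2, if_neg h1, if_pos h2,
            hxw α β (fun s => hαβ _ (by simp) (by rw [rank_x]; exact Nat.zero_le _))]
        · intro α hα
          have h3 : i - 2 ^ B < 2 ^ B := by omega
          have h4 := hα (i - 2 ^ B) (by have : 0 < 2 ^ B := by positivity
                                        omega) (by
            intro β γ hβγ
            rw [ln, ln, if_pos h3, if_pos h3,
              hxw β γ (fun s => hβγ _ (by rw [rank_x]; exact Nat.succ_pos _)),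
              hβγ (.w 0) (by rw [rank_w]; omega)])
          rw [ln, if_pos h3] at h4
          rw [ln, if_neg h1, if_pos h2]
          rcases h4 with h4 | h4
          · rwa [hxw (Function.update α (.w 0) (xc B (i - 2 ^ B))) α (fun s => by
              rw [Function.update_of_ne (by simp)])] at h4
          · exact absurd (Function.update_self _ _ _) h4
      · rw [stp, if_neg h1, if_neg h2]
        intro α _ hα
        exfalso
        obtain ⟨k, hk, hp⟩ := exists_pat n j B (xs α 0)
        have h5 := hα (2 ^ B + k) (by omega)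
        rw [ln, if_neg (by omega), if_pos (by omega), Nat.add_sub_cancel_left] at h5
        exact h5 hp
  refine ⟨⟨2 * 2 ^ B + 1, ln n j B, stp n B, hcorr, ⟨2 * 2 ^ B, by omega, ?_⟩⟩, rfl, ?_⟩
  · intro α h
    rw [ln, if_neg (by have : 0 < 2 ^ B := by positivity
                       omega), if_neg (by omega)] at h
    exact h
  · have hsz : B * 4 ^ j * B ≤ 4 * n ^ 2 := by
      have e : (4 : ℕ) ^ j = 2 ^ j * 2 ^ j := by
        rw [← mul_pow]
        norm_num
      calc B * 4 ^ j * B = (B * 2 ^ j) * (B * 2 ^ j) := by rw [e]; ring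
        _ ≤ (2 * n) * (2 * n) := Nat.mul_le_mul hj2 hj2
        _ = 4 * n ^ 2 := by ring
    have hpat : ∀ i (z : Var 1 n → Bool),
        (patF i (blkF n j) B).eval z = true ↔ Pat n j B i (xs z 0) := by
      intro i z
      rw [patF_eval]
      simp only [blkF_eval, Pat]
    have hps : ∀ i, (patF i (blkF n j) B).size ≤ B * 4 ^ j := fun i =>
      patF_size _ _ _ (blkF_size n j) _
    intro i hi
    show ∃ φ : Fml (Var 1 n), φ.size * B ≤ 4 * n ^ 2 + B ∧ ∀ z, ln n j B i z ↔ φ.eval z = true
    by_cases h1 : i < 2 ^ B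
    · refine ⟨.or (.neg (patF i (blkF n j) B))
        (if xc B i = true then .neg (.var (.w 0)) else .var (.w 0)), ?_, ?_⟩
      · have hw : (if xc B i = true then Fml.neg (.var (.w 0)) else .var (.w 0) :
            Fml (Var 1 n)).size = 1 := by
          split_ifs <;> rfl
        simp only [Fml.size]
        rw [hw]
        have := hps i
        calc ((patF i (blkF n j) B).size + 1) * B ≤ (B * 4 ^ j + 1) * B :=
              Nat.mul_le_mul_right _ (by omega)
          _ = B * 4 ^ j * B + B := by ring
          _ ≤ _ := by omega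
      · intro z
        rw [ln, if_pos h1]
        simp only [Fml.eval, Bool.or_eq_true, Bool.not_eq_true']
        have e1 : (patF i (blkF n j) B).eval z = false ↔ ¬ Pat n j B i (xs z 0) := by
          rw [← hpat, Bool.not_eq_true]
        have e2 : (if xc B i = true then Fml.neg (.var (.w 0)) else .var (.w 0) :
            Fml (Var 1 n)).eval z = true ↔ z (.w 0) ≠ xc B i := by
          split_ifs with h
          · rw [h]; simp [Fml.eval]
          · simp only [Bool.not_eq_true] at h
            rw [h]; simp [Fml.eval]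
        rw [e1, e2]
    · by_cases h2 : i < 2 * 2 ^ B
      · refine ⟨.neg (patF (i - 2 ^ B) (blkF n j) B), ?_, ?_⟩
        · simp only [Fml.size]
          have := hps (i - 2 ^ B)
          calc (patF (i - 2 ^ B) (blkF n j) B).size * B ≤ (B * 4 ^ j) * B :=
                Nat.mul_le_mul_right _ this
            _ ≤ _ := by omega
        · intro z
          rw [ln, if_neg h1, if_pos h2, ← hpat]
          simp [Fml.eval]
      · refine ⟨.const false, by simp [Fml.size], ?_⟩
        intro z
        rw [ln, if_neg h1, if_neg h2]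
        simp [Fml.eval]

end Pool.Agent.H564R2.QF
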